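import Pool.Agent.Lib.H86T.Defs

/-!
# Chunk B1 (M): freezing one plane coordinate at a critical point
`up i p` is an affine map; `H ∘ up i p` is `C²` and periodic (`up i p (z + zn a b) = up i p z + zn a' b'`, `a', b'` = `a, b` with `0` at `i`).
By `eq`, `ind`: `H (up i p z) = G (f p) z`. Let `γ` be an orbit of `z ↦ H (up i p z) = G (f p) z`. `γ̃ t = up i p (γ t)` is an orbit of `H`:
for `j ≠ i` the `j`-components of `jn (fderiv H (up i p z))` and of `jn (fderiv (H ∘ up i p) z)` agree (directions with zero `i`-component),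
the `i`-components are `0`: on the left because `H (up i q z) = G (f q) z` for all `q` and `Crit f p` (the derivative in the plane `i` is
`∂_s G * fderiv f p = 0`), on the right because `H (up i p z)` does not depend on the plane coordinate `i`. So `γ̃` is constant (`NF.orb`), the
plane coordinate `i` of `γ` is constant too, hence `γ` is constant.
-/

namespace H86T

open MeasureTheory H83D H25S Set Filter Topology

/-- drop the coordinate `i` -/
private noncomputable def b1A {n : ℕ} (i : Fin n) : (Fin n → ℝ) →L[ℝ] (Fin n → ℝ) :=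
  ContinuousLinearMap.pi fun j => if j = i then 0 else ContinuousLinearMap.proj j

/-- drop the plane coordinate `i` -/
private noncomputable def b1L {n : ℕ} (i : Fin n) : E n →L[ℝ] E n := (b1A i).prodMap (b1A i)

private theorem b1A_apply {n : ℕ} (i j : Fin n) (x : Fin n → ℝ) :
    b1A i x j = if j = i then 0 else x j := by
  unfold b1A
  rw [ContinuousLinearMap.pi_apply]
  split_ifs <;> rfl

private theorem b1L_fst {n : ℕ} (i j : Fin n) (z : E n) :
    (b1L i z).1 j = if j = i then 0 else z.1 j := b1A_apply i j z.1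

private theorem b1L_snd {n : ℕ} (i j : Fin n) (z : E n) :
    (b1L i z).2 j = if j = i then 0 else z.2 j := b1A_apply i j z.2

private theorem b1_up {n : ℕ} (i : Fin n) (p : ℝ × ℝ) (z : E n) :
    up i p z = b1L i z + ((Pi.single i p.1 : Fin n → ℝ), (Pi.single i p.2 : Fin n → ℝ)) := by
  refine Prod.ext (funext fun j => ?_) (funext fun j => ?_)
  · show Function.update z.1 i p.1 j = (b1L i z).1 j + (Pi.single i p.1 : Fin n → ℝ) j
    rw [b1L_fst]
    by_cases h : j = i
    · subst h
      simp
    · simp [h]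
  · show Function.update z.2 i p.2 j = (b1L i z).2 j + (Pi.single i p.2 : Fin n → ℝ) j
    rw [b1L_snd]
    by_cases h : j = i
    · subst h
      simp
    · simp [h]

private theorem b1_fderiv_up {n : ℕ} (i : Fin n) (p : ℝ × ℝ) (z : E n) :
    HasFDerivAt (fun z => up i p z) (b1L i) z := by
  have h : (fun z => up i p z) = fun z => b1L i z +
      ((Pi.single i p.1 : Fin n → ℝ), (Pi.single i p.2 : Fin n → ℝ)) := funext (b1_up i p)
  rw [h]
  exact (b1L i).hasFDerivAt.add_const _

private theorem b1_contDiff_up {n : ℕ} (i : Fin n) (p : ℝ × ℝ) :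
    ContDiff ℝ 2 (fun z : E n => up i p z) := by
  have h : (fun z => up i p z) = fun z => b1L i z +
      ((Pi.single i p.1 : Fin n → ℝ), (Pi.single i p.2 : Fin n → ℝ)) := funext (b1_up i p)
  rw [h]
  exact (b1L i).contDiff.add contDiff_const

private theorem b1_up_add {n : ℕ} (i : Fin n) (p : ℝ × ℝ) (z : E n) (a b : Fin n → ℤ) :
    up i p (z + zn a b) = up i p z + zn (Function.update a i 0) (Function.update b i 0) := by
  refine Prod.ext (funext fun j => ?_) (funext fun j => ?_)
  · show Function.update (z + zn a b).1 i p.1 j =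
      Function.update z.1 i p.1 j + ((Function.update a i 0 j : ℤ) : ℝ)
    by_cases h : j = i
    · subst h
      simp
    · simp [h, zn]
  · show Function.update (z + zn a b).2 i p.2 j =
      Function.update z.2 i p.2 j + ((Function.update b i 0 j : ℤ) : ℝ)
    by_cases h : j = i
    · subst h
      simp
    · simp [h, zn]

private theorem b1_H {n : ℕ} {H : E n → ℝ} {i : Fin n} {f : ℝ × ℝ → ℝ} {G : ℝ → E n → ℝ}
    (h : Thr H i f G) (q : ℝ × ℝ) (z : E n) : H (up i q z) = G (f q) z := by
  rw [h.eq, h.ind]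
  have : cd i (up i q z) = q := by
    show (Function.update z.1 i q.1 i, Function.update z.2 i q.2 i) = q
    rw [Function.update_self, Function.update_self]
  rw [this]

/-- the derivative of `H` in the plane `i` vanishes over a critical point -/
private theorem b1_zero {n : ℕ} {H : E n → ℝ} {i : Fin n} {f : ℝ × ℝ → ℝ} {G : ℝ → E n → ℝ}
    (h : Thr H i f G) {p : ℝ × ℝ} (z : E n) (v : ℝ × ℝ) (hv : fderiv ℝ f p v = 0) :
    fderiv ℝ H (up i p z) ((Pi.single i v.1 : Fin n → ℝ), (Pi.single i v.2 : Fin n → ℝ)) = 0 := by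
  have hH : DifferentiableAt ℝ H (up i p z) := h.nf.smooth.differentiable (by norm_num) _
  have hf : DifferentiableAt ℝ f p := h.f3.differentiable (by norm_num) _
  -- the curve `q ↦ up i q z`
  have hcur : HasFDerivAt (fun q : ℝ × ℝ => up i q z)
      (((ContinuousLinearMap.single ℝ (fun _ : Fin n => ℝ) i).prodMap
        (ContinuousLinearMap.single ℝ (fun _ : Fin n => ℝ) i)) : ℝ × ℝ →L[ℝ] E n) p := by
    have e : (fun q : ℝ × ℝ => up i q z) = fun q => b1L i z +
        (((ContinuousLinearMap.single ℝ (fun _ : Fin n => ℝ) i).prodMap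
          (ContinuousLinearMap.single ℝ (fun _ : Fin n => ℝ) i)) : ℝ × ℝ →L[ℝ] E n) q :=
      funext fun q => b1_up i q z
    rw [e]
    exact (ContinuousLinearMap.hasFDerivAt _).const_add _
  have h1 : HasFDerivAt (fun q : ℝ × ℝ => H (up i q z)) _ p := hH.hasFDerivAt.comp p hcur
  have hG : DifferentiableAt ℝ (fun s => G s z) (f p) := by
    have h2 : DifferentiableAt ℝ (fun p : ℝ × E n => G p.1 p.2) (f p, z) :=
      h.G2.differentiable (by norm_num) _
    have h3 : DifferentiableAt ℝ (fun s : ℝ => (s, z)) (f p) :=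
      DifferentiableAt.prodMk differentiableAt_fun_id (differentiableAt_const z)
    exact DifferentiableAt.comp (f := fun s : ℝ => (s, z)) (f p) h2 h3
  have h2 : HasFDerivAt (fun q : ℝ × ℝ => G (f q) z) _ p := hG.hasFDerivAt.comp p hf.hasFDerivAt
  have h3 : (fun q : ℝ × ℝ => H (up i q z)) = fun q => G (f q) z := funext fun q => b1_H h q z
  rw [h3] at h1
  have h4 := congrArg (fun l : ℝ × ℝ →L[ℝ] ℝ => l v) (h1.unique h2)
  have h5 : (fderiv ℝ H (up i p z)) ((Pi.single i v.1 : Fin n → ℝ), (Pi.single i v.2 : Fin n → ℝ)) =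
      (fderiv ℝ (fun s => G s z) (f p)) (fderiv ℝ f p v) := h4
  rw [h5, hv, map_zero]

theorem frz_nf {n : ℕ} {H : E n → ℝ} {i : Fin n} {f : ℝ × ℝ → ℝ} {G : ℝ → E n → ℝ} (h : Thr H i f G) {p : ℝ × ℝ}
    (hp : Crit f p) : NF (fun z => H (up i p z)) := by
  refine ⟨h.nf.smooth.comp (b1_contDiff_up i p), fun z a b => ?_, ?_⟩
  · show H (up i p (z + zn a b)) = H (up i p z)
    rw [b1_up_add, h.nf.per]
  intro T γ hT0 hT1 hγ hclo t
  have hfd : ∀ z : E n, fderiv ℝ (fun z => H (up i p z)) z = (fderiv ℝ H (up i p z)).comp (b1L i) := by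
    intro z
    have hH : DifferentiableAt ℝ H (up i p z) := h.nf.smooth.differentiable (by norm_num) _
    exact (hH.hasFDerivAt.comp z (b1_fderiv_up i p z)).fderiv
  have hLsame1 : ∀ j, j ≠ i → b1L i ((0 : Fin n → ℝ), (Pi.single j (1 : ℝ) : Fin n → ℝ)) =
      ((0 : Fin n → ℝ), (Pi.single j (1 : ℝ) : Fin n → ℝ)) := by
    intro j hj
    refine Prod.ext (funext fun k => ?_) (funext fun k => ?_)
    · rw [b1L_fst]
      split_ifs <;> rfl
    · rw [b1L_snd]
      by_cases hk : k = i
      · subst hk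
        simp [Ne.symm hj]
      · simp [hk]
  have hLsame2 : ∀ j, j ≠ i → b1L i ((Pi.single j (1 : ℝ) : Fin n → ℝ), (0 : Fin n → ℝ)) =
      ((Pi.single j (1 : ℝ) : Fin n → ℝ), (0 : Fin n → ℝ)) := by
    intro j hj
    refine Prod.ext (funext fun k => ?_) (funext fun k => ?_)
    · rw [b1L_fst]
      by_cases hk : k = i
      · subst hk
        simp [Ne.symm hj]
      · simp [hk]
    · rw [b1L_snd]
      split_ifs <;> rfl
  have hL01 : b1L i ((0 : Fin n → ℝ), (Pi.single i (1 : ℝ) : Fin n → ℝ)) = 0 := by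
    refine Prod.ext (funext fun k => ?_) (funext fun k => ?_)
    · rw [b1L_fst]
      split_ifs <;> rfl
    · rw [b1L_snd]
      by_cases hk : k = i
      · simp [hk]
      · simp [hk]
  have hL02 : b1L i ((Pi.single i (1 : ℝ) : Fin n → ℝ), (0 : Fin n → ℝ)) = 0 := by
    refine Prod.ext (funext fun k => ?_) (funext fun k => ?_)
    · rw [b1L_fst]
      by_cases hk : k = i
      · simp [hk]
      · simp [hk]
    · rw [b1L_snd]
      split_ifs <;> rfl
  have hz1 : ∀ z : E n, fderiv ℝ H (up i p z) ((0 : Fin n → ℝ), (Pi.single i (1 : ℝ) : Fin n → ℝ)) = 0 := by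
    intro z
    have := b1_zero h z (0, 1) hp.2
    rwa [show (Pi.single i ((0, 1) : ℝ × ℝ).1 : Fin n → ℝ) = 0 from Pi.single_zero i] at this
  have hz2 : ∀ z : E n, fderiv ℝ H (up i p z) ((Pi.single i (1 : ℝ) : Fin n → ℝ), (0 : Fin n → ℝ)) = 0 := by
    intro z
    have := b1_zero h z (1, 0) hp.1
    rwa [show (Pi.single i ((1, 0) : ℝ × ℝ).2 : Fin n → ℝ) = 0 from Pi.single_zero i] at this
  have hjn : ∀ z : E n, b1L i (jn (fderiv ℝ (fun z => H (up i p z)) z)) = jn (fderiv ℝ H (up i p z)) := by
    intro z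
    rw [hfd z]
    refine Prod.ext (funext fun j => ?_) (funext fun j => ?_)
    · rw [b1L_fst]
      by_cases hj : j = i
      · rw [if_pos hj, hj]
        exact (hz1 z).symm
      · rw [if_neg hj]
        show (fderiv ℝ H (up i p z)) (b1L i ((0 : Fin n → ℝ), (Pi.single j (1 : ℝ) : Fin n → ℝ))) = _
        rw [hLsame1 j hj]
        rfl
    · rw [b1L_snd]
      by_cases hj : j = i
      · rw [if_pos hj, hj]
        show (0 : ℝ) = -(fderiv ℝ H (up i p z)) ((Pi.single i (1 : ℝ) : Fin n → ℝ), (0 : Fin n → ℝ))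
        rw [hz2 z, neg_zero]
      · rw [if_neg hj]
        show -(fderiv ℝ H (up i p z)) (b1L i ((Pi.single j (1 : ℝ) : Fin n → ℝ), (0 : Fin n → ℝ))) = _
        rw [hLsame2 j hj]
        rfl
  have hΓ : ∀ t : ℝ, HasDerivAt (fun t => up i p (γ t)) (jn (fderiv ℝ H (up i p (γ t)))) t := by
    intro t
    rw [← hjn (γ t)]
    exact (b1_fderiv_up i p (γ t)).comp_hasDerivAt t (hγ t)
  obtain ⟨a, b, hab⟩ := hclo
  have hconst := h.nf.orb T (fun t => up i p (γ t)) hT0 hT1 hΓ
    ⟨Function.update a i 0, Function.update b i 0, by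
      show up i p (γ T) = up i p (γ 0) + _
      rw [hab, b1_up_add]⟩ t
  have hi1 : (γ t).1 i = (γ 0).1 i := by
    have hd : ∀ s, HasDerivAt (fun s => (γ s).1 i) 0 s := by
      intro s
      have h1 := ((ContinuousLinearMap.proj (R := ℝ) (φ := fun _ : Fin n => ℝ) i).comp
        (ContinuousLinearMap.fst ℝ (Fin n → ℝ) (Fin n → ℝ))).hasFDerivAt.comp_hasDerivAt s (hγ s)
      have h2 : ((ContinuousLinearMap.proj (R := ℝ) (φ := fun _ : Fin n => ℝ) i).comp
        (ContinuousLinearMap.fst ℝ (Fin n → ℝ) (Fin n → ℝ)))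
          (jn (fderiv ℝ (fun z => H (up i p z)) (γ s))) = 0 := by
        show (fderiv ℝ (fun z => H (up i p z)) (γ s))
          ((0 : Fin n → ℝ), (Pi.single i (1 : ℝ) : Fin n → ℝ)) = 0
        rw [hfd, ContinuousLinearMap.comp_apply, hL01, map_zero]
      rw [h2] at h1
      exact h1
    exact is_const_of_deriv_eq_zero (fun s => (hd s).differentiableAt) (fun s => (hd s).deriv) t 0
  have hi2 : (γ t).2 i = (γ 0).2 i := by
    have hd : ∀ s, HasDerivAt (fun s => (γ s).2 i) 0 s := by
      intro s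
      have h1 := ((ContinuousLinearMap.proj (R := ℝ) (φ := fun _ : Fin n => ℝ) i).comp
        (ContinuousLinearMap.snd ℝ (Fin n → ℝ) (Fin n → ℝ))).hasFDerivAt.comp_hasDerivAt s (hγ s)
      have h2 : ((ContinuousLinearMap.proj (R := ℝ) (φ := fun _ : Fin n => ℝ) i).comp
        (ContinuousLinearMap.snd ℝ (Fin n → ℝ) (Fin n → ℝ)))
          (jn (fderiv ℝ (fun z => H (up i p z)) (γ s))) = 0 := by
        show -(fderiv ℝ (fun z => H (up i p z)) (γ s))
          ((Pi.single i (1 : ℝ) : Fin n → ℝ), (0 : Fin n → ℝ)) = 0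
        rw [hfd, ContinuousLinearMap.comp_apply, hL02, map_zero, neg_zero]
      rw [h2] at h1
      exact h1
    exact is_const_of_deriv_eq_zero (fun s => (hd s).differentiableAt) (fun s => (hd s).deriv) t 0
  refine Prod.ext (funext fun j => ?_) (funext fun j => ?_)
  · by_cases hj : j = i
    · rw [hj, hi1]
    · have h1 := congrFun (congrArg Prod.fst hconst) j
      have h2 : ∀ s, (up i p (γ s)).1 j = (γ s).1 j := fun s => by
        show Function.update (γ s).1 i p.1 j = _
        rw [Function.update_of_ne hj]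
      rw [← h2 t, ← h2 0]
      exact h1
  · by_cases hj : j = i
    · rw [hj, hi2]
    · have h1 := congrFun (congrArg Prod.snd hconst) j
      have h2 : ∀ s, (up i p (γ s)).2 j = (γ s).2 j := fun s => by
        show Function.update (γ s).2 i p.2 j = _
        rw [Function.update_of_ne hj]
      rw [← h2 t, ← h2 0]
      exact h1

end H86T
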