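import Pool.Agent.Lib.H86T.Defs

/-!
# Chunk B2 (M/L): the orbits over a critical point of `G c`
`c = f q₀`. Let `γ, k` be as in `Clo f c τ`, `μ = deriv (fun s => G s w) c`, and suppose `τ ≤ |μ|`. Put `Γ t = up i (γ (μ t)) w`. It is an orbit
of `H`: by `eq` `H z = G (f (cd i z)) z`, and the derivative of `H` at `Γ t` in the direction `v` is
`∂_s G (c, Γ t) * fderiv f (γ (μ t)) (v.1 i, v.2 i) + fderiv (G c) (Γ t) v`, where `∂_s G (c, Γ t) = μ` (`ind`) and `fderiv (G c) (Γ t) = 0` (by `ind`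
`G c = G c ∘ up i w_i`, `w_i = cd i w`, and `up i w_i (Γ t) = w`, `fderiv (G c) w = 0`). So `jn (fderiv H (Γ t))` is `μ (d2 f, - d1 f)(γ (μ t))` in the
plane `i` and `0` elsewhere. `T = τ / |μ| ≤ 1`: `Γ T = Γ 0 + zn` (for `μ < 0` use `γ (-τ) = γ 0 - iv k`, `orb_uniq`, `orb_add`). So `Γ` is constant, `γ` is
constant, and then `Crit f (γ 0)`: contradiction.
-/

namespace H86T

open MeasureTheory H83D H25S Set Filter Topology

private theorem h67_cd_up {n : ℕ} (i : Fin n) (p : ℝ × ℝ) (z : E n) : cd i (up i p z) = p := by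
  unfold cd up
  simp

private theorem h67_up_up {n : ℕ} (i : Fin n) (p q : ℝ × ℝ) (z : E n) : up i p (up i q z) = up i p z := by
  unfold up
  simp

private theorem h67_up_self {n : ℕ} (i : Fin n) (z : E n) : up i (cd i z) z = z := by
  unfold up cd
  simp

private theorem h67_diff_up {n : ℕ} (i : Fin n) (p : ℝ × ℝ) : Differentiable ℝ (fun z : E n => up i p z) := by
  unfold up
  refine Differentiable.prodMk ?_ ?_
  · refine differentiable_pi.2 fun j => ?_
    by_cases hj : j = i
    · subst hj; simp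
    · simp only [Function.update_of_ne hj]; fun_prop
  · refine differentiable_pi.2 fun j => ?_
    by_cases hj : j = i
    · subst hj; simp
    · simp only [Function.update_of_ne hj]; fun_prop

private noncomputable def h67_L {n : ℕ} (i : Fin n) : E n →L[ℝ] ℝ × ℝ :=
  ((ContinuousLinearMap.proj i).comp (ContinuousLinearMap.fst ℝ (Fin n → ℝ) (Fin n → ℝ))).prod
    ((ContinuousLinearMap.proj i).comp (ContinuousLinearMap.snd ℝ (Fin n → ℝ) (Fin n → ℝ)))

private theorem h67_L_apply {n : ℕ} (i : Fin n) (z : E n) : h67_L i z = cd i z := rfl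

/-- the derivative of `H` over a critical point -/
private theorem h67_fd {n : ℕ} {H : E n → ℝ} {i : Fin n} {f : ℝ × ℝ → ℝ} {G : ℝ → E n → ℝ} (h : Thr H i f G)
    {c : ℝ} {w : E n} (hw : fderiv ℝ (G c) w = 0) {p : ℝ × ℝ} (hp : f p = c) (v : E n) :
    fderiv ℝ H (up i p w) v = fderiv ℝ f p (cd i v) * deriv (fun s => G s w) c := by
  have hG : Differentiable ℝ fun q : ℝ × E n => G q.1 q.2 := h.G2.differentiable (by norm_num)
  have hf : Differentiable ℝ f := h.p2.smooth.differentiable (by norm_num)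
  set z := up i p w with hz
  have hcz : cd i z = p := h67_cd_up i p w
  set g' := fderiv ℝ (fun q : ℝ × E n => G q.1 q.2) (c, z) with hg'
  have h1 : HasFDerivAt (fun q : ℝ × E n => G q.1 q.2) g' (c, z) := (hG (c, z)).hasFDerivAt
  -- the derivative of `H`
  have h2 : HasFDerivAt (fun y : E n => (f (cd i y), y)) (((fderiv ℝ f p).comp (h67_L i)).prod
      (ContinuousLinearMap.id ℝ (E n))) z := by
    refine HasFDerivAt.prodMk ?_ (hasFDerivAt_id z)
    have h3 : HasFDerivAt f (fderiv ℝ f p) (h67_L i z) := by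
      rw [h67_L_apply, hcz]; exact (hf p).hasFDerivAt
    exact h3.comp z (h67_L i).hasFDerivAt
  have h3 : HasFDerivAt H (g'.comp (((fderiv ℝ f p).comp (h67_L i)).prod (ContinuousLinearMap.id ℝ (E n)))) z := by
    have h4 : H = (fun q : ℝ × E n => G q.1 q.2) ∘ fun y : E n => (f (cd i y), y) := funext fun y => h.eq y
    rw [h4]
    refine HasFDerivAt.comp z ?_ h2
    show HasFDerivAt (fun q : ℝ × E n => G q.1 q.2) g' (f (cd i z), z)
    rw [hcz, hp]; exact h1
  rw [h3.fderiv]
  have h5 : (g'.comp (((fderiv ℝ f p).comp (h67_L i)).prod (ContinuousLinearMap.id ℝ (E n)))) v =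
      fderiv ℝ f p (cd i v) * g' (1, 0) + g' (0, v) := by
    have h6 : ((((fderiv ℝ f p).comp (h67_L i)).prod (ContinuousLinearMap.id ℝ (E n))) v : ℝ × E n) =
        (fderiv ℝ f p (cd i v)) • ((1, 0) : ℝ × E n) + ((0, v) : ℝ × E n) := by
      refine Prod.ext ?_ ?_
      · simp [h67_L_apply]
      · simp
    rw [ContinuousLinearMap.comp_apply, h6, map_add, map_smul, smul_eq_mul]
  rw [h5]
  -- the two partial derivatives
  have h7 : g' (1, 0) = deriv (fun s => G s w) c := by
    have h8 : HasDerivAt (fun s : ℝ => ((s, z) : ℝ × E n)) ((1, 0) : ℝ × E n) c :=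
      (hasDerivAt_id c).prodMk (hasDerivAt_const c z)
    have h9 := h1.comp_hasDerivAt c h8
    have h10 : ((fun q : ℝ × E n => G q.1 q.2) ∘ fun s : ℝ => ((s, z) : ℝ × E n)) = fun s => G s w := by
      funext s
      show G s z = G s w
      rw [hz, h.ind]
    rw [h10] at h9
    exact h9.deriv.symm
  have h11 : g' (0, v) = 0 := by
    have h12 : HasFDerivAt (fun y : E n => ((c, y) : ℝ × E n)) (ContinuousLinearMap.inr ℝ ℝ (E n)) z :=
      hasFDerivAt_prodMk_right c z
    have h13 : HasFDerivAt (G c) (g'.comp (ContinuousLinearMap.inr ℝ ℝ (E n))) z :=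
      HasFDerivAt.comp (g := fun q : ℝ × E n => G q.1 q.2) z h1 h12
    have hd : DifferentiableAt ℝ (G c) w := by
      have : G c = (fun q : ℝ × E n => G q.1 q.2) ∘ fun y : E n => ((c, y) : ℝ × E n) := rfl
      rw [this]
      exact (hG _).comp _ (by fun_prop)
    have h14 : HasFDerivAt (G c) (0 : E n →L[ℝ] ℝ) (up i (cd i w) z) := by
      rw [hz, h67_up_up, h67_up_self, ← hw]
      exact hd.hasFDerivAt
    have h15 : HasFDerivAt (G c ∘ fun y => up i (cd i w) y)
        ((0 : E n →L[ℝ] ℝ).comp (fderiv ℝ (fun y => up i (cd i w) y) z)) z :=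
      h14.comp z (h67_diff_up i (cd i w) z).hasFDerivAt
    have h16 : (G c ∘ fun y => up i (cd i w) y) = G c := by
      funext y
      exact h.ind c _ y
    rw [h16, ContinuousLinearMap.zero_comp] at h15
    have h17 := h13.unique h15
    have h18 := congrArg (fun l : E n →L[ℝ] ℝ => l v) h17
    simpa using h18
  rw [h7, h11, add_zero]

theorem thr_clo {n : ℕ} {H : E n → ℝ} {i : Fin n} {f : ℝ × ℝ → ℝ} {G : ℝ → E n → ℝ} (h : Thr H i f G) {c τ : ℝ} {w : E n}
    (hw : fderiv ℝ (G c) w = 0) (hτ : Clo f c τ) : |deriv (fun s => G s w) c| < τ := by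
  obtain ⟨hτ0, γ, k, hγ, hc, hk, hcr⟩ := hτ
  by_contra hcon
  rw [not_lt] at hcon
  set μ := deriv (fun s => G s w) c with hμ
  have hμ0 : 0 < |μ| := hτ0.trans_le hcon
  have hne : μ ≠ 0 := abs_pos.1 hμ0
  have hlev : ∀ t, f (γ t) = c := fun t => by rw [orb_level h.p2 hγ t, hc]
  set Γ : ℝ → E n := fun t => up i (γ (μ * t)) w with hΓ
  -- `Γ` is an orbit
  have hder : ∀ t : ℝ, HasDerivAt Γ (jn (fderiv ℝ H (Γ t))) t := by
    intro t
    have h1 : HasDerivAt (fun s => γ (μ * s)) (μ • (d2 f (γ (μ * t)), -d1 f (γ (μ * t)))) t := by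
      have h2 : HasDerivAt (fun s : ℝ => μ * s) μ t := by simpa using (hasDerivAt_id t).const_mul μ
      exact HasDerivAt.scomp t (hγ (μ * t)) h2
    have h1a : HasDerivAt (fun s => (γ (μ * s)).1) (μ * d2 f (γ (μ * t))) t := by
      have := (hasFDerivAt_fst (𝕜 := ℝ) (E := ℝ) (F := ℝ) (p := γ (μ * t))).comp_hasDerivAt t h1
      exact this.congr_deriv (by simp)
    have h1b : HasDerivAt (fun s => (γ (μ * s)).2) (μ * -d1 f (γ (μ * t))) t := by
      have := (hasFDerivAt_snd (𝕜 := ℝ) (E := ℝ) (F := ℝ) (p := γ (μ * t))).comp_hasDerivAt t h1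
      exact this.congr_deriv (by simp)
    have hfd := fun v => h67_fd h hw (hlev (μ * t)) v
    show HasDerivAt (fun s => (Function.update w.1 i (γ (μ * s)).1, Function.update w.2 i (γ (μ * s)).2))
      (jn (fderiv ℝ H (Γ t))) t
    unfold jn
    refine HasDerivAt.prodMk ?_ ?_
    · refine hasDerivAt_pi.2 fun j => ?_
      show HasDerivAt (fun s => Function.update w.1 i (γ (μ * s)).1 j)
        (fderiv ℝ H (up i (γ (μ * t)) w) ((0 : Fin n → ℝ), (Pi.single j (1 : ℝ) : Fin n → ℝ))) t
      rw [hfd]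
      by_cases hj : j = i
      · subst hj
        have e1 : cd j (((0 : Fin n → ℝ), (Pi.single j (1 : ℝ) : Fin n → ℝ)) : E n) = (0, 1) := by
          unfold cd; simp
        rw [e1]
        simp only [Function.update_self]
        have e2 : fderiv ℝ f (γ (μ * t)) (0, 1) = d2 f (γ (μ * t)) := rfl
        rw [e2, mul_comm]
        exact h1a
      · have e1 : cd i (((0 : Fin n → ℝ), (Pi.single j (1 : ℝ) : Fin n → ℝ)) : E n) = 0 := by
          unfold cd; simp [Ne.symm hj]
        rw [e1, map_zero, zero_mul]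
        simp only [Function.update_of_ne hj]
        exact hasDerivAt_const _ _
    · refine hasDerivAt_pi.2 fun j => ?_
      show HasDerivAt (fun s => Function.update w.2 i (γ (μ * s)).2 j)
        (-fderiv ℝ H (up i (γ (μ * t)) w) ((Pi.single j (1 : ℝ) : Fin n → ℝ), (0 : Fin n → ℝ))) t
      rw [hfd]
      by_cases hj : j = i
      · subst hj
        have e1 : cd j (((Pi.single j (1 : ℝ) : Fin n → ℝ), (0 : Fin n → ℝ)) : E n) = (1, 0) := by
          unfold cd; simp
        rw [e1]
        simp only [Function.update_self]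
        have e2 : fderiv ℝ f (γ (μ * t)) (1, 0) = d1 f (γ (μ * t)) := rfl
        rw [e2, ← neg_mul, mul_comm]
        exact h1b
      · have e1 : cd i (((Pi.single j (1 : ℝ) : Fin n → ℝ), (0 : Fin n → ℝ)) : E n) = 0 := by
          unfold cd; simp [Ne.symm hj]
        rw [e1, map_zero, zero_mul, neg_zero]
        simp only [Function.update_of_ne hj]
        exact hasDerivAt_const _ _
  -- the closing time
  have hT0 : 0 < τ / |μ| := div_pos hτ0 hμ0
  have hT1 : τ / |μ| ≤ 1 := (div_le_one hμ0).2 hcon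
  have hclose : ∃ k' : ℤ × ℤ, γ (μ * (τ / |μ|)) = γ 0 + iv k' := by
    rcases lt_or_gt_of_ne hne with hneg | hpos
    · have e1 : μ * (τ / |μ|) = -τ := by
        rw [abs_of_neg hneg]; field_simp
      have h1 := orb_uniq h.p2 hγ (orb_add h.p2 hγ k) (a := τ) (b := 0) hk (-τ)
      simp only [add_neg_cancel, zero_add] at h1
      refine ⟨-k, ?_⟩
      rw [e1, h1]
      refine Prod.ext ?_ ?_ <;> simp [iv]
    · have e1 : μ * (τ / |μ|) = τ := by
        rw [abs_of_pos hpos]; field_simp
      exact ⟨k, by rw [e1, hk]⟩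
  obtain ⟨k', hk'⟩ := hclose
  have hcl : ∃ a b : Fin n → ℤ, Γ (τ / |μ|) = Γ 0 + zn a b := by
    refine ⟨Pi.single i k'.1, Pi.single i k'.2, ?_⟩
    show up i (γ (μ * (τ / |μ|))) w = up i (γ (μ * 0)) w + zn (Pi.single i k'.1) (Pi.single i k'.2)
    rw [hk', mul_zero]
    unfold up zn iv
    refine Prod.ext ?_ ?_
    · funext j
      by_cases hj : j = i
      · subst hj; simp
      · simp [Pi.single_apply, hj]
    · funext j
      by_cases hj : j = i
      · subst hj; simp
      · simp [Pi.single_apply, hj]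
  have hconst := h.nf.orb (τ / |μ|) Γ hT0 hT1 hder hcl
  -- `γ` is constant
  have hγc : ∀ t, γ t = γ 0 := by
    intro t
    have h1 := hconst (t / μ)
    have h2 := congrArg (cd i) h1
    rw [hΓ] at h2
    simp only [h67_cd_up, mul_zero] at h2
    rwa [mul_div_cancel₀ _ hne] at h2
  apply hcr
  have h3 : HasDerivAt γ (0 : ℝ × ℝ) 0 := by
    have : γ = fun _ => γ 0 := funext hγc
    rw [this]
    exact hasDerivAt_const _ _
  have h4 := (hγ 0).unique h3
  have h5 : d2 f (γ 0) = 0 := congrArg Prod.fst h4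
  have h6 : -d1 f (γ 0) = 0 := congrArg Prod.snd h4
  exact ⟨by linarith, h5⟩

end H86T
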