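import Pool.Agent.Lib.H86T.T12
import Pool.Agent.Lib.H86T.B2

/-!
# Chunk B3 (M): the step
`S = Icc (0 : E n) 1` (compact, nonempty). `Par S G (fun s q => deriv (fun s => G s q) s)`: `G` is `C²`, the derivative in `s` is
`fderiv (fun p => G p.1 p.2) (s, q) (1, 0)`, continuous. For `c = f q₀` the function `G c` is `ℤ^{2n}`-periodic: `G c z = H (up i q₀ z)` (`eq`, `ind`), so a
maximiser of `G c` on `S` is a global maximiser and `fderiv (G c) q = 0`; `thr_clo` gives `hclo`. The same for `-G`. `key` for `G` and `-G`: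
`MM S G (f (cd i z)) - MM S G (f p) ≤ 33`, `MM S (-G) (f (cd i w)) - MM S (-G) (f p) ≤ 33`. `H z = G (f (cd i z)) z ≤ MM S G (f (cd i z))` (reduce `z`
modulo `ℤ^{2n}` into `S`), `MM S G (f p) = G (f p) q' = H (up i p q')`; same for `-H w`. So `H z - H w ≤ 66 + H (up i p q') - H (up i p q'') ≤ 66 + C`.
-/

namespace H86T

open MeasureTheory H83D H25S Set Filter Topology

private theorem h6_up_add {n : ℕ} (i : Fin n) (p : ℝ × ℝ) (z : E n) (a b : Fin n → ℤ) :
    up i p (z + zn a b) = up i p z + zn (Function.update a i 0) (Function.update b i 0) := by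
  refine Prod.ext (funext fun j => ?_) (funext fun j => ?_)
  · show Function.update (z + zn a b).1 i p.1 j =
      Function.update z.1 i p.1 j + ((Function.update a i 0 j : ℤ) : ℝ)
    by_cases h : j = i
    · subst h
      simp
    · simp [h, zn]
  · show Function.update (z + zn a b).2 i p.2 j =
      Function.update z.2 i p.2 j + ((Function.update b i 0 j : ℤ) : ℝ)
    by_cases h : j = i
    · subst h
      simp
    · simp [h, zn]

private theorem h6_H {n : ℕ} {H : E n → ℝ} {i : Fin n} {f : ℝ × ℝ → ℝ} {G : ℝ → E n → ℝ}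
    (h : Thr H i f G) (q : ℝ × ℝ) (z : E n) : H (up i q z) = G (f q) z := by
  rw [h.eq, h.ind]
  have : cd i (up i q z) = q := by
    show (Function.update z.1 i q.1 i, Function.update z.2 i q.2 i) = q
    rw [Function.update_self, Function.update_self]
  rw [this]

/-- `G (f q₀)` is periodic -/
private theorem h6_per {n : ℕ} {H : E n → ℝ} {i : Fin n} {f : ℝ × ℝ → ℝ} {G : ℝ → E n → ℝ}
    (h : Thr H i f G) (q : ℝ × ℝ) (z : E n) (a b : Fin n → ℤ) : G (f q) (z + zn a b) = G (f q) z := by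
  rw [← h6_H h, ← h6_H h, h6_up_add, h.nf.per]

/-- reduction into the unit cube -/
private theorem h6_red {n : ℕ} (z : E n) : ∃ a b : Fin n → ℤ, z + zn a b ∈ Icc (0 : E n) 1 := by
  refine ⟨fun j => -⌊z.1 j⌋, fun j => -⌊z.2 j⌋, ⟨?_, ?_⟩, ⟨?_, ?_⟩⟩
  · intro j
    show (0 : ℝ) ≤ z.1 j + ((-⌊z.1 j⌋ : ℤ) : ℝ)
    push_cast
    linarith [Int.floor_le (z.1 j)]
  · intro j
    show (0 : ℝ) ≤ z.2 j + ((-⌊z.2 j⌋ : ℤ) : ℝ)
    push_cast
    linarith [Int.floor_le (z.2 j)]
  · intro j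
    show z.1 j + ((-⌊z.1 j⌋ : ℤ) : ℝ) ≤ 1
    push_cast
    linarith [Int.lt_floor_add_one (z.1 j)]
  · intro j
    show z.2 j + ((-⌊z.2 j⌋ : ℤ) : ℝ) ≤ 1
    push_cast
    linarith [Int.lt_floor_add_one (z.2 j)]

private theorem h6_cpt {n : ℕ} : IsCompact (Icc (0 : E n) 1) := isCompact_Icc

private theorem h6_der {n : ℕ} {G : ℝ → E n → ℝ} (hG : ContDiff ℝ 2 fun p : ℝ × E n => G p.1 p.2) (s : ℝ) (q : E n) :
    HasDerivAt (fun s => G s q) (fderiv ℝ (fun p : ℝ × E n => G p.1 p.2) (s, q) (1, 0)) s := by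
  have h1 : HasFDerivAt (fun p : ℝ × E n => G p.1 p.2) (fderiv ℝ (fun p : ℝ × E n => G p.1 p.2) (s, q)) (s, q) :=
    (hG.differentiable (by norm_num) (s, q)).hasFDerivAt
  have h8 : HasDerivAt (fun s : ℝ => ((s, q) : ℝ × E n)) ((1, 0) : ℝ × E n) s :=
    (hasDerivAt_id s).prodMk (hasDerivAt_const s q)
  exact h1.comp_hasDerivAt s h8

private theorem h6_cG' {n : ℕ} {G : ℝ → E n → ℝ} (hG : ContDiff ℝ 2 fun p : ℝ × E n => G p.1 p.2) :
    Continuous fun p : ℝ × E n => deriv (fun s => G s p.2) p.1 := by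
  have h : (fun p : ℝ × E n => deriv (fun s => G s p.2) p.1) =
      fun p => fderiv ℝ (fun p : ℝ × E n => G p.1 p.2) p (1, 0) := by
    funext p
    exact (h6_der hG p.1 p.2).deriv
  rw [h]
  exact (hG.continuous_fderiv (by norm_num)).clm_apply continuous_const

private theorem h6_par {n : ℕ} {G : ℝ → E n → ℝ} (hG : ContDiff ℝ 2 fun p : ℝ × E n => G p.1 p.2) :
    Par (Icc (0 : E n) 1) G (fun s q => deriv (fun s => G s q) s) where
  cpt := h6_cpt
  ne := ⟨0, ⟨le_refl _, ⟨fun _ => zero_le_one, fun _ => zero_le_one⟩⟩⟩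
  cG := hG.continuous
  cG' := h6_cG' hG
  der := fun s q => (h6_der hG s q).differentiableAt.hasDerivAt

private theorem h6_par' {n : ℕ} {G : ℝ → E n → ℝ} (hG : ContDiff ℝ 2 fun p : ℝ × E n => G p.1 p.2) :
    Par (Icc (0 : E n) 1) (fun s q => -G s q) (fun s q => -deriv (fun s => G s q) s) where
  cpt := h6_cpt
  ne := ⟨0, ⟨le_refl _, ⟨fun _ => zero_le_one, fun _ => zero_le_one⟩⟩⟩
  cG := hG.continuous.neg
  cG' := (h6_cG' hG).neg
  der := fun s q => (h6_der hG s q).differentiableAt.hasDerivAt.neg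

theorem thr_step {n : ℕ} {H : E n → ℝ} {i : Fin n} {f : ℝ × ℝ → ℝ} {G : ℝ → E n → ℝ} (h : Thr H i f G) (p : ℝ × ℝ)
    {C : ℝ} (hC : ∀ a b : E n, H (up i p a) - H (up i p b) ≤ C) (z w : E n) : H z - H w ≤ 66 + C := by
  have k1 := key h.p2 h.f3 (h6_par h.G2) (fun c τ q hq hmax hτ => by
    have hτ' := hτ
    obtain ⟨-, γ, k, -, hc, -, -⟩ := hτ
    refine thr_clo h ?_ hτ'
    have hm : IsLocalMax (G c) q := Eventually.of_forall fun y => by
      obtain ⟨a, b, hab⟩ := h6_red y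
      have h1 := hmax _ hab
      rw [← hc] at h1 ⊢
      rwa [h6_per h] at h1
    exact hm.fderiv_eq_zero) (cd i z) p
  have k2 := key h.p2 h.f3 (h6_par' h.G2) (fun c τ q hq hmax hτ => by
    have hτ' := hτ
    obtain ⟨-, γ, k, -, hc, -, -⟩ := hτ
    have h2 := thr_clo h (c := c) (w := q) ?_ hτ'
    · show |-deriv (fun s => G s q) c| < τ
      rwa [abs_neg]
    have hm : IsLocalMin (G c) q := Eventually.of_forall fun y => by
      obtain ⟨a, b, hab⟩ := h6_red y
      have h1 : -G c (y + zn a b) ≤ -G c q := hmax _ hab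
      rw [← hc] at h1 ⊢
      rw [h6_per h] at h1
      linarith
    exact hm.fderiv_eq_zero) (cd i w) p
  obtain ⟨a, b, hab⟩ := h6_red z
  obtain ⟨a', b', hab'⟩ := h6_red w
  have m1 := mm_le (h6_par h.G2) hab (f (cd i z))
  have m2 := mm_le (h6_par' h.G2) hab' (f (cd i w))
  rw [h6_per h, ← h.eq] at m1
  have m2' : -H w ≤ MM (Icc (0 : E n) 1) (fun s q => -G s q) (f (cd i w)) := by
    have e : -G (f (cd i w)) (w + zn a' b') = -H w := by rw [h6_per h, ← h.eq]
    rw [← e]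
    exact m2
  obtain ⟨q', -, e1, -⟩ := mm_att (h6_par h.G2) (f p)
  obtain ⟨q'', -, e2, -⟩ := mm_att (h6_par' h.G2) (f p)
  rw [e1, ← h6_H h p q'] at k1
  have e3 : (fun s q => -G s q) (f p) q'' = -H (up i p q'') := by
    show -G (f p) q'' = _
    rw [h6_H h]
  rw [e2] at k2
  have k2' : MM (Icc (0 : E n) 1) (fun s q => -G s q) (f (cd i w)) - -H (up i p q'') ≤ 33 := by
    rw [← e3]
    exact k2
  have hc := hC q' q''
  linarith

end H86T
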