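import Pool.Agent.Lib.H86T.Defs

/-!
# Chunk B4 (M): peeling off one coordinate
`itg_thr`: `G₁ s z = G (fun j => if j = i then s else if j ∈ B then f j (cd j z) else 0) (frz (insert i B) 0 z)`: `C²` (the `f j`, `j ∈ B`, are `C³`), does not
depend on `cd i z`. `itg_frz`: `G₂ s z = G (Function.update s i (f i (p i))) (up i 0 z)`, `frz (insert i B) 0 (up i (p i) z) = up i 0 (frz B 0 z)`.
-/

namespace H86T

open MeasureTheory H83D H25S Set Filter Topology

theorem frz_insert {n : ℕ} (i : Fin n) (B : Finset (Fin n)) (p : Fin n → ℝ × ℝ) (z : E n) :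
    frz (insert i B) p z = up i (p i) (frz B p z) := by
  unfold frz up
  refine Prod.ext (funext fun j => ?_) (funext fun j => ?_)
  · by_cases h : j = i
    · subst h
      simp
    · simp [h]
  · by_cases h : j = i
    · subst h
      simp
    · simp [h]

private theorem b4_cd_up {n : ℕ} (i : Fin n) (p : ℝ × ℝ) (z : E n) : cd i (up i p z) = p := by
  unfold cd up
  simp

private theorem b4_cd_up_ne {n : ℕ} {i j : Fin n} (h : j ≠ i) (p : ℝ × ℝ) (z : E n) :
    cd j (up i p z) = cd j z := by
  unfold cd up
  simp [h]

private theorem b4_frz_up {n : ℕ} (i : Fin n) (B : Finset (Fin n)) (q : Fin n → ℝ × ℝ) (p : ℝ × ℝ)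
    (z : E n) : frz (insert i B) q (up i p z) = frz (insert i B) q z := by
  unfold frz up
  refine Prod.ext (funext fun j => ?_) (funext fun j => ?_)
  · by_cases h : j = i
    · subst h
      simp
    · simp [h]
  · by_cases h : j = i
    · subst h
      simp
    · simp [h]

private theorem b4_cd_contDiff {n : ℕ} (j : Fin n) : ContDiff ℝ 2 fun z : E n => cd j z := by
  unfold cd
  exact (((contDiff_apply ℝ ℝ j).comp contDiff_fst)).prodMk ((contDiff_apply ℝ ℝ j).comp contDiff_snd)

private theorem b4_frz_contDiff {n : ℕ} (B : Finset (Fin n)) (q : Fin n → ℝ × ℝ) :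
    ContDiff ℝ 2 fun z : E n => frz B q z := by
  unfold frz
  refine ContDiff.prodMk (contDiff_pi.2 fun j => ?_) (contDiff_pi.2 fun j => ?_)
  · by_cases h : j ∈ B
    · simp only [if_pos h]
      exact contDiff_const
    · simp only [if_neg h]
      exact (contDiff_apply ℝ ℝ j).comp contDiff_fst
  · by_cases h : j ∈ B
    · simp only [if_pos h]
      exact contDiff_const
    · simp only [if_neg h]
      exact (contDiff_apply ℝ ℝ j).comp contDiff_snd

private theorem b4_up_contDiff {n : ℕ} (i : Fin n) (p : ℝ × ℝ) :
    ContDiff ℝ 2 fun z : E n => up i p z := by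
  unfold up
  refine ContDiff.prodMk (contDiff_pi.2 fun j => ?_) (contDiff_pi.2 fun j => ?_)
  · by_cases h : j = i
    · subst h
      simp only [Function.update_self]
      exact contDiff_const
    · simp only [Function.update_of_ne h]
      exact (contDiff_apply ℝ ℝ j).comp contDiff_fst
  · by_cases h : j = i
    · subst h
      simp only [Function.update_self]
      exact contDiff_const
    · simp only [Function.update_of_ne h]
      exact (contDiff_apply ℝ ℝ j).comp contDiff_snd

theorem itg_thr {n : ℕ} {H : E n → ℝ} {i : Fin n} {B : Finset (Fin n)} {f : Fin n → ℝ × ℝ → ℝ}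
    {G : (Fin n → ℝ) → E n → ℝ} (hi : i ∉ B) (h : Itg H (insert i B) f G) : ∃ G₁, Thr H i (f i) G₁ := by
  refine ⟨fun s z => G (fun j => if j = i then s else if j ∈ B then f j (cd j z) else 0)
    (frz (insert i B) 0 z), h.nf, h.p2 i (Finset.mem_insert_self i B),
    h.f3 i (Finset.mem_insert_self i B), ?_, ?_, ?_⟩
  · have h1 : ContDiff ℝ 2 fun p : ℝ × E n =>
        ((fun j => if j = i then p.1 else if j ∈ B then f j (cd j p.2) else 0 : Fin n → ℝ),
          frz (insert i B) 0 p.2) := by
      refine ContDiff.prodMk (contDiff_pi.2 fun j => ?_)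
        ((b4_frz_contDiff (insert i B) 0).comp contDiff_snd)
      by_cases hj : j = i
      · simp only [if_pos hj]
        exact contDiff_fst
      · simp only [if_neg hj]
        by_cases hB : j ∈ B
        · simp only [if_pos hB]
          have h2 : ContDiff ℝ 2 (f j) :=
            (h.f3 j (Finset.mem_insert_of_mem hB)).of_le (by norm_num)
          exact h2.comp ((b4_cd_contDiff j).comp contDiff_snd)
        · simp only [if_neg hB]
          exact contDiff_const
    exact h.G2.comp h1
  · intro z
    rw [h.eq z]
    congr 1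
    funext j
    by_cases hj : j = i
    · subst hj
      simp
    · simp [hj]
  · intro s p z
    show G (fun j => if j = i then s else if j ∈ B then f j (cd j (up i p z)) else 0)
      (frz (insert i B) 0 (up i p z)) = G (fun j => if j = i then s else if j ∈ B then f j (cd j z)
        else 0) (frz (insert i B) 0 z)
    rw [b4_frz_up]
    congr 1
    funext j
    by_cases hj : j = i
    · simp [hj]
    · rw [b4_cd_up_ne hj]

theorem itg_frz {n : ℕ} {H : E n → ℝ} {i : Fin n} {B : Finset (Fin n)} {f : Fin n → ℝ × ℝ → ℝ}
    {G : (Fin n → ℝ) → E n → ℝ} (hi : i ∉ B) (h : Itg H (insert i B) f G) (p : ℝ × ℝ)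
    (hnf : NF (fun z => H (up i p z))) : ∃ G₂, Itg (fun z => H (up i p z)) B f G₂ := by
  refine ⟨fun s z => G (Function.update s i (f i p)) (up i 0 z), hnf,
    fun j hj => h.p2 j (Finset.mem_insert_of_mem hj),
    fun j hj => h.f3 j (Finset.mem_insert_of_mem hj), ?_, ?_⟩
  · have h1 : ContDiff ℝ 2 fun q : (Fin n → ℝ) × E n =>
        ((Function.update q.1 i (f i p) : Fin n → ℝ), up i 0 q.2) := by
      refine ContDiff.prodMk (contDiff_pi.2 fun j => ?_) ((b4_up_contDiff i 0).comp contDiff_snd)
      by_cases hj : j = i
      · subst hj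
        simp only [Function.update_self]
        exact contDiff_const
      · simp only [Function.update_of_ne hj]
        exact (contDiff_apply ℝ ℝ j).comp contDiff_fst
    exact h.G2.comp h1
  · intro z
    show H (up i p z) = G (Function.update (fun j => if j ∈ B then f j (cd j z) else 0) i (f i p))
      (up i 0 (frz B 0 z))
    rw [h.eq (up i p z), b4_frz_up]
    have h2 : frz (insert i B) 0 z = up i 0 (frz B 0 z) := frz_insert i B 0 z
    rw [h2]
    congr 1
    funext j
    by_cases hj : j = i
    · subst hj
      simp [b4_cd_up]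
    · simp [hj, b4_cd_up_ne hj]

end H86T
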