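import Pool.Agent.Lib.H86T.B1
import Pool.Agent.Lib.H86T.B3
import Pool.Agent.Lib.H86T.B4

/-!
# Chunk B5 (S/M): induction over `A`
`Finset.induction_on` (generalise `H`, `G`). `insert i B`: `itg_thr`, `frz_nf` (`H₁ z = H (up i (p i) z)` is `NF`), `itg_frz`, induction for `H₁`;
`H₁ (frz B p z) = H (frz (insert i B) p z)` (`frz_insert`), `thr_step` with `C₁ = 66 |B| + C`. Critical points: `hp`.
-/

namespace H86T

open MeasureTheory H83D H25S Set Filter Topology

private theorem b5_empty {n : ℕ} (p : Fin n → ℝ × ℝ) (z : E n) : frz ∅ p z = z := by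
  simp [frz]

private theorem b5_both {n : ℕ} (f : Fin n → ℝ × ℝ → ℝ) (p : Fin n → ℝ × ℝ) (A : Finset (Fin n)) :
    ∀ (H : E n → ℝ) (G : (Fin n → ℝ) → E n → ℝ), Itg H A f G → (∀ i ∈ A, Crit (f i) (p i)) →
      NF (fun z => H (frz A p z)) ∧ ∀ C : ℝ, (∀ a b : E n, H (frz A p a) - H (frz A p b) ≤ C) →
        ∀ z w : E n, H z - H w ≤ 66 * A.card + C := by
  induction A using Finset.induction_on with
  | empty =>
    intro H G h _
    have e : ∀ z, H (frz ∅ p z) = H z := fun z => by rw [b5_empty]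
    refine ⟨?_, ?_⟩
    · have e2 : (fun z => H (frz ∅ p z)) = H := funext e
      rw [e2]
      exact h.nf
    · intro C hC z w
      have h1 := hC z w
      rw [e, e] at h1
      rw [Finset.card_empty]
      push_cast
      linarith
  | insert i B hi ih =>
    intro H G h hp
    obtain ⟨G₁, hT⟩ := itg_thr hi h
    have hnf := frz_nf hT (hp i (Finset.mem_insert_self i B))
    obtain ⟨G₂, h2⟩ := itg_frz hi h (p i) hnf
    obtain ⟨ih1, ih2⟩ := ih (fun z => H (up i (p i) z)) G₂ h2
      (fun j hj => hp j (Finset.mem_insert_of_mem hj))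
    have e : ∀ z, H (frz (insert i B) p z) = H (up i (p i) (frz B p z)) := fun z => by
      rw [frz_insert]
    refine ⟨?_, ?_⟩
    · have e2 : (fun z => H (frz (insert i B) p z)) = fun z => H (up i (p i) (frz B p z)) := funext e
      rw [e2]
      exact ih1
    · intro C hC z w
      have h3 := thr_step hT (p i) (C := 66 * B.card + C)
        (ih2 C (fun a b => by have := hC a b; rwa [e, e] at this)) z w
      rw [Finset.card_insert_of_notMem hi]
      push_cast
      linarith

theorem itg_nf {n : ℕ} {H : E n → ℝ} {A : Finset (Fin n)} {f : Fin n → ℝ × ℝ → ℝ} {G : (Fin n → ℝ) → E n → ℝ}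
    (h : Itg H A f G) {p : Fin n → ℝ × ℝ} (hp : ∀ i ∈ A, Crit (f i) (p i)) : NF (fun z => H (frz A p z)) :=
  (b5_both f p A H G h hp).1

theorem itg_step {n : ℕ} {H : E n → ℝ} {A : Finset (Fin n)} {f : Fin n → ℝ × ℝ → ℝ} {G : (Fin n → ℝ) → E n → ℝ}
    (h : Itg H A f G) {p : Fin n → ℝ × ℝ} (hp : ∀ i ∈ A, Crit (f i) (p i)) {C : ℝ}
    (hC : ∀ a b : E n, H (frz A p a) - H (frz A p b) ≤ C) (z w : E n) : H z - H w ≤ 66 * A.card + C :=
  (b5_both f p A H G h hp).2 C hC z w

end H86T
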