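import Pool.Agent.Lib.H86T.T11

/-!
# Chunk B6 (M): one plane coordinate
`K v = H (up j v 0)`, `H z = K (cd j z)`: `P2 K`; an orbit `γ` of `K` with `γ (t + T) = γ t + iv k` gives the orbit `Γ t = up j (γ t) 0` of `H` (`H` does not depend on
the other coordinates), closing by `zn`; `Γ` is constant (`NF.orb`), so `γ` is constant and `Crit K (γ 0)`. `osc1`.
-/

namespace H86T

open MeasureTheory H83D H25S Set Filter Topology

/-- the inclusion of the plane number `j` -/
private noncomputable def b6_i {n : ℕ} (j : Fin n) : (ℝ × ℝ) →L[ℝ] E n :=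
  (ContinuousLinearMap.single ℝ (fun _ : Fin n => ℝ) j).prodMap (ContinuousLinearMap.single ℝ (fun _ : Fin n => ℝ) j)

private theorem b6_i_apply {n : ℕ} (j : Fin n) (v : ℝ × ℝ) :
    b6_i j v = ((Pi.single j v.1 : Fin n → ℝ), (Pi.single j v.2 : Fin n → ℝ)) := rfl

private theorem b6_cd {n : ℕ} (j : Fin n) (v : ℝ × ℝ) : cd j (b6_i j v) = v := by
  rw [b6_i_apply]
  unfold cd
  ext <;> simp

private theorem b6_iv {n : ℕ} (j : Fin n) (k : ℤ × ℤ) :
    b6_i j (iv k) = zn (Pi.single j k.1 : Fin n → ℤ) (Pi.single j k.2 : Fin n → ℤ) := by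
  rw [b6_i_apply]
  unfold zn iv
  ext i
  · by_cases h : i = j
    · subst h; simp
    · simp [Pi.single_apply, h]
  · by_cases h : i = j
    · subst h; simp
    · simp [Pi.single_apply, h]

private theorem b6_zero {n : ℕ} {H : E n → ℝ} (hH : NF H) {j : Fin n}
    (hdep : ∀ z w : E n, cd j z = cd j w → H z = H w) (z w : E n) (hw : cd j w = 0) :
    fderiv ℝ H z w = 0 := by
  have hd : DifferentiableAt ℝ H z := (hH.smooth.differentiable (by norm_num)) z
  have h1 : HasDerivAt (fun s : ℝ => z + s • w) w 0 := by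
    have := ((hasDerivAt_id (0 : ℝ)).smul_const w).const_add z
    simpa using this
  have h2 : HasFDerivAt H (fderiv ℝ H z) (z + (0 : ℝ) • w) := by
    simpa using hd.hasFDerivAt
  have h3 : HasDerivAt (fun s : ℝ => H (z + s • w)) (fderiv ℝ H z w) 0 := h2.comp_hasDerivAt (0 : ℝ) h1
  have h4 : (fun s : ℝ => H (z + s • w)) = fun _ => H z := by
    funext s
    apply hdep
    have e1 : w.1 j = 0 := congrArg Prod.fst hw
    have e2 : w.2 j = 0 := congrArg Prod.snd hw
    unfold cd
    ext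
    · simp [e1]
    · simp [e2]
  rw [h4] at h3
  exact h3.unique (hasDerivAt_const (0 : ℝ) (H z))

theorem one_case {n : ℕ} {H : E n → ℝ} (hH : NF H) {j : Fin n} (hdep : ∀ z w : E n, cd j z = cd j w → H z = H w)
    (z w : E n) : H z - H w ≤ 33 := by
  have hK : ∀ z : E n, H z = H (b6_i j (cd j z)) := fun z => hdep _ _ (b6_cd j (cd j z)).symm
  have hP : P2 fun v => H (b6_i j v) := by
    refine ⟨hH.smooth.comp (b6_i j).contDiff, fun v k => ?_⟩
    rw [map_add, b6_iv]
    exact hH.per _ _ _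
  have hfd : ∀ v : ℝ × ℝ, fderiv ℝ (fun v => H (b6_i j v)) v = (fderiv ℝ H (b6_i j v)).comp (b6_i j) := by
    intro v
    have hd : DifferentiableAt ℝ H (b6_i j v) := (hH.smooth.differentiable (by norm_num)) _
    exact (hd.hasFDerivAt.comp v (b6_i j).hasFDerivAt).fderiv
  have h1 : ∀ v : ℝ × ℝ, d1 (fun v => H (b6_i j v)) v
      = fderiv ℝ H (b6_i j v) ((Pi.single j (1 : ℝ) : Fin n → ℝ), (0 : Fin n → ℝ)) := by
    intro v
    unfold d1
    rw [hfd, ContinuousLinearMap.comp_apply, b6_i_apply j (1, 0)]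
    simp
  have h2 : ∀ v : ℝ × ℝ, d2 (fun v => H (b6_i j v)) v
      = fderiv ℝ H (b6_i j v) ((0 : Fin n → ℝ), (Pi.single j (1 : ℝ) : Fin n → ℝ)) := by
    intro v
    unfold d2
    rw [hfd, ContinuousLinearMap.comp_apply, b6_i_apply j (0, 1)]
    simp
  have hj : ∀ v : ℝ × ℝ, jn (fderiv ℝ H (b6_i j v))
      = b6_i j (d2 (fun v => H (b6_i j v)) v, -d1 (fun v => H (b6_i j v)) v) := by
    intro v
    have e0 := b6_i_apply j (d2 (fun v => H (b6_i j v)) v, -d1 (fun v => H (b6_i j v)) v)
    rw [e0, h1, h2]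
    unfold jn
    ext i
    · by_cases h : i = j
      · subst h; simp
      · have e := b6_zero hH hdep (b6_i j v) ((0 : Fin n → ℝ), (Pi.single i (1 : ℝ) : Fin n → ℝ)) (by
          unfold cd
          ext
          · simp
          · simp [Pi.single_apply, Ne.symm h])
        simp [Pi.single_apply, h, e]
    · by_cases h : i = j
      · subst h; simp
      · have e := b6_zero hH hdep (b6_i j v) ((Pi.single i (1 : ℝ) : Fin n → ℝ), (0 : Fin n → ℝ)) (by
          unfold cd
          ext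
          · simp [Pi.single_apply, Ne.symm h]
          · simp)
        simp [Pi.single_apply, h, e]
  rw [hK z, hK w]
  refine osc1 hP (fun γ T k hT hT1 hO hc => ?_) (cd j z) (cd j w)
  have hG : ∀ t : ℝ, HasDerivAt (fun t => b6_i j (γ t)) (jn (fderiv ℝ H (b6_i j (γ t)))) t := by
    intro t
    rw [hj]
    exact ((b6_i j).hasFDerivAt.comp_hasDerivAt t (hO t))
  have hcl : ∃ a b : Fin n → ℤ, b6_i j (γ T) = b6_i j (γ 0) + zn a b := by
    refine ⟨Pi.single j k.1, Pi.single j k.2, ?_⟩
    have e := hc 0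
    rw [zero_add] at e
    rw [e, map_add, b6_iv]
  have hconst := hH.orb T (fun t => b6_i j (γ t)) hT hT1 hG hcl
  have hγ : γ = fun _ => γ 0 := by
    funext t
    have e := congrArg (cd j) (hconst t)
    simpa only [b6_cd] using e
  have hd0 := hO 0
  rw [hγ] at hd0
  have e := hd0.unique (hasDerivAt_const (0 : ℝ) (γ 0))
  have e1 := congrArg Prod.fst e
  have e2 := congrArg Prod.snd e
  simp only [Prod.fst_zero, Prod.snd_zero, neg_eq_zero] at e1 e2
  exact ⟨e2, e1⟩

end H86T
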