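import Pool.Agent.Lib.H86T.Defs
import Pool.Agent.Lib.H25S.G6

/-!
# Chunk B7 (M/L): two plane coordinates and a translation symmetry
`I v` (`v : E4`) = the point with the plane coordinates `(v.1 0, v.2 0)` at `j`, `(v.1 1, v.2 1)` at `l`, `0` elsewhere (continuous linear). `K v = H (I v)`,
`H z = K (![z.1 j, z.1 l], ![z.2 j, z.2 l])`. `T4 K`: `C²`, periodic, and an orbit `γ` of `K` gives the orbit `t ↦ I (γ t)` of `H` (`H` does not depend on the other
coordinates, so `jn (fderiv H (I v)) = I (jv (fderiv K v))`), so it is constant (`I` is injective). `K (v + t • u') = K v`, `u'` = the coordinates `j, l` of `u`, `u' ≠ 0`.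
`H25S.main`.
-/

namespace H86T

open MeasureTheory H83D H25S Set Filter Topology

private noncomputable def b7_l {n : ℕ} (j l : Fin n) : (Fin 2 → ℝ) →L[ℝ] (Fin n → ℝ) :=
  (ContinuousLinearMap.single ℝ (fun _ : Fin n => ℝ) j).comp (ContinuousLinearMap.proj (R := ℝ) (φ := fun _ : Fin 2 => ℝ) 0) +
    (ContinuousLinearMap.single ℝ (fun _ : Fin n => ℝ) l).comp (ContinuousLinearMap.proj (R := ℝ) (φ := fun _ : Fin 2 => ℝ) 1)

/-- the inclusion of the planes number `j`, `l` -/
private noncomputable def b7_i {n : ℕ} (j l : Fin n) : E4 →L[ℝ] E n := (b7_l j l).prodMap (b7_l j l)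

private theorem b7_l_apply {n : ℕ} (j l : Fin n) (v : Fin 2 → ℝ) :
    b7_l j l v = (Pi.single j (v 0) : Fin n → ℝ) + (Pi.single l (v 1) : Fin n → ℝ) := rfl

private theorem b7_i_apply {n : ℕ} (j l : Fin n) (v : E4) :
    b7_i j l v = (b7_l j l v.1, b7_l j l v.2) := rfl

private theorem b7_lj {n : ℕ} {j l : Fin n} (hjl : j ≠ l) (v : Fin 2 → ℝ) : b7_l j l v j = v 0 := by
  rw [b7_l_apply]
  simp [hjl]

private theorem b7_ll {n : ℕ} {j l : Fin n} (hjl : j ≠ l) (v : Fin 2 → ℝ) : b7_l j l v l = v 1 := by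
  rw [b7_l_apply]
  simp [Ne.symm hjl]

private theorem b7_lo {n : ℕ} {j l i : Fin n} (hj : i ≠ j) (hl : i ≠ l) (v : Fin 2 → ℝ) : b7_l j l v i = 0 := by
  rw [b7_l_apply]
  simp [hj, hl]

private theorem b7_cdj {n : ℕ} {j l : Fin n} (hjl : j ≠ l) (v : E4) : cd j (b7_i j l v) = (v.1 0, v.2 0) := by
  show (b7_l j l v.1 j, b7_l j l v.2 j) = _
  rw [b7_lj hjl, b7_lj hjl]

private theorem b7_cdl {n : ℕ} {j l : Fin n} (hjl : j ≠ l) (v : E4) : cd l (b7_i j l v) = (v.1 1, v.2 1) := by
  show (b7_l j l v.1 l, b7_l j l v.2 l) = _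
  rw [b7_ll hjl, b7_ll hjl]

private theorem b7_zv {n : ℕ} {j l : Fin n} (hjl : j ≠ l) (a b : Fin 2 → ℤ) :
    b7_i j l (zv a b) = zn (fun i => if i = j then a 0 else if i = l then a 1 else 0)
      (fun i => if i = j then b 0 else if i = l then b 1 else 0) := by
  rw [b7_i_apply]
  unfold zn zv
  have key : ∀ c : Fin 2 → ℤ, b7_l j l (fun i => (c i : ℝ)) =
      fun i => (((if i = j then c 0 else if i = l then c 1 else 0 : ℤ)) : ℝ) := by
    intro c
    funext i
    by_cases h1 : i = j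
    · subst h1
      rw [b7_lj hjl, if_pos rfl]
    · by_cases h2 : i = l
      · subst h2
        rw [b7_ll hjl, if_neg h1, if_pos rfl]
      · rw [b7_lo h1 h2, if_neg h1, if_neg h2, Int.cast_zero]
  exact Prod.ext (key a) (key b)

private theorem b7_inj {n : ℕ} {j l : Fin n} (hjl : j ≠ l) {v w : E4} (h : b7_i j l v = b7_i j l w) : v = w := by
  have e1 := congrArg (cd j) h
  have e2 := congrArg (cd l) h
  rw [b7_cdj hjl, b7_cdj hjl] at e1
  rw [b7_cdl hjl, b7_cdl hjl] at e2
  have a1 := congrArg Prod.fst e1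
  have a2 := congrArg Prod.snd e1
  have a3 := congrArg Prod.fst e2
  have a4 := congrArg Prod.snd e2
  simp only at a1 a2 a3 a4
  refine Prod.ext (funext fun i => ?_) (funext fun i => ?_)
  · fin_cases i
    · exact a1
    · exact a3
  · fin_cases i
    · exact a2
    · exact a4

private theorem b7_zero {n : ℕ} {H : E n → ℝ} (hH : NF H) {j l : Fin n}
    (hdep : ∀ z w : E n, cd j z = cd j w → cd l z = cd l w → H z = H w) (z w : E n) (hw : cd j w = 0)
    (hw' : cd l w = 0) : fderiv ℝ H z w = 0 := by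
  have hd : DifferentiableAt ℝ H z := (hH.smooth.differentiable (by norm_num)) z
  have h1 : HasDerivAt (fun s : ℝ => z + s • w) w 0 := by
    have := ((hasDerivAt_id (0 : ℝ)).smul_const w).const_add z
    simpa using this
  have h2 : HasFDerivAt H (fderiv ℝ H z) (z + (0 : ℝ) • w) := by
    simpa using hd.hasFDerivAt
  have h3 : HasDerivAt (fun s : ℝ => H (z + s • w)) (fderiv ℝ H z w) 0 := h2.comp_hasDerivAt (0 : ℝ) h1
  have h4 : (fun s : ℝ => H (z + s • w)) = fun _ => H z := by
    funext s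
    have e1 : w.1 j = 0 := congrArg Prod.fst hw
    have e2 : w.2 j = 0 := congrArg Prod.snd hw
    have e3 : w.1 l = 0 := congrArg Prod.fst hw'
    have e4 : w.2 l = 0 := congrArg Prod.snd hw'
    apply hdep
    · unfold cd
      ext
      · simp [e1]
      · simp [e2]
    · unfold cd
      ext
      · simp [e3]
      · simp [e4]
  rw [h4] at h3
  exact h3.unique (hasDerivAt_const (0 : ℝ) (H z))

theorem two_case {n : ℕ} {H : E n → ℝ} (hH : NF H) {j l : Fin n} (hjl : j ≠ l)
    (hdep : ∀ z w : E n, cd j z = cd j w → cd l z = cd l w → H z = H w) {u : E n} (hu : ¬ (cd j u = 0 ∧ cd l u = 0))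
    (hinv : ∀ (z : E n) (t : ℝ), H (z + t • u) = H z) (z w : E n) : H z - H w ≤ 33 := by
  have hfd : ∀ v : E4, fderiv ℝ (fun v => H (b7_i j l v)) v = (fderiv ℝ H (b7_i j l v)).comp (b7_i j l) := by
    intro v
    have hd : DifferentiableAt ℝ H (b7_i j l v) := (hH.smooth.differentiable (by norm_num)) _
    exact (hd.hasFDerivAt.comp v (b7_i j l).hasFDerivAt).fderiv
  have hj : ∀ v : E4, jn (fderiv ℝ H (b7_i j l v)) = b7_i j l (jv (fderiv ℝ (fun v => H (b7_i j l v)) v)) := by
    intro v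
    rw [hfd, b7_i_apply]
    have s1 : ∀ i : Fin n, ∀ k : Fin 2, (if k = 0 then j else l) = i →
        b7_i j l ((Pi.single k (1 : ℝ) : Fin 2 → ℝ), (0 : Fin 2 → ℝ)) =
          ((Pi.single i (1 : ℝ) : Fin n → ℝ), (0 : Fin n → ℝ)) := by
      intro i k hk
      rw [b7_i_apply]
      refine Prod.ext ?_ (by show b7_l j l 0 = 0; rw [map_zero])
      show b7_l j l (Pi.single k (1 : ℝ)) = Pi.single i (1 : ℝ)
      rw [b7_l_apply]
      subst hk
      fin_cases k <;> simp
    have s2 : ∀ i : Fin n, ∀ k : Fin 2, (if k = 0 then j else l) = i →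
        b7_i j l ((0 : Fin 2 → ℝ), (Pi.single k (1 : ℝ) : Fin 2 → ℝ)) =
          ((0 : Fin n → ℝ), (Pi.single i (1 : ℝ) : Fin n → ℝ)) := by
      intro i k hk
      rw [b7_i_apply]
      refine Prod.ext (by show b7_l j l 0 = 0; rw [map_zero]) ?_
      show b7_l j l (Pi.single k (1 : ℝ)) = Pi.single i (1 : ℝ)
      rw [b7_l_apply]
      subst hk
      fin_cases k <;> simp
    refine Prod.ext (funext fun i => ?_) (funext fun i => ?_)
    · show fderiv ℝ H (b7_i j l v) ((0 : Fin n → ℝ), (Pi.single i (1 : ℝ) : Fin n → ℝ)) =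
        b7_l j l (jv ((fderiv ℝ H (b7_i j l v)).comp (b7_i j l))).1 i
      by_cases h1 : i = j
      · subst h1
        rw [b7_lj hjl]
        show _ = (fderiv ℝ H (b7_i i l v)) (b7_i i l ((0 : Fin 2 → ℝ), (Pi.single 0 (1 : ℝ) : Fin 2 → ℝ)))
        rw [s2 i 0 (by simp)]
      · by_cases h2 : i = l
        · subst h2
          rw [b7_ll hjl]
          show _ = (fderiv ℝ H (b7_i j i v)) (b7_i j i ((0 : Fin 2 → ℝ), (Pi.single 1 (1 : ℝ) : Fin 2 → ℝ)))
          rw [s2 i 1 (by simp)]
        · rw [b7_lo h1 h2]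
          apply b7_zero hH hdep
          · unfold cd
            ext <;> simp [Ne.symm h1]
          · unfold cd
            ext <;> simp [Ne.symm h2]
    · show -fderiv ℝ H (b7_i j l v) ((Pi.single i (1 : ℝ) : Fin n → ℝ), (0 : Fin n → ℝ)) =
        b7_l j l (jv ((fderiv ℝ H (b7_i j l v)).comp (b7_i j l))).2 i
      by_cases h1 : i = j
      · subst h1
        rw [b7_lj hjl]
        show _ = -(fderiv ℝ H (b7_i i l v)) (b7_i i l ((Pi.single 0 (1 : ℝ) : Fin 2 → ℝ), (0 : Fin 2 → ℝ)))
        rw [s1 i 0 (by simp)]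
      · by_cases h2 : i = l
        · subst h2
          rw [b7_ll hjl]
          show _ = -(fderiv ℝ H (b7_i j i v)) (b7_i j i ((Pi.single 1 (1 : ℝ) : Fin 2 → ℝ), (0 : Fin 2 → ℝ)))
          rw [s1 i 1 (by simp)]
        · rw [b7_lo h1 h2, neg_eq_zero]
          apply b7_zero hH hdep
          · unfold cd
            ext <;> simp [Ne.symm h1]
          · unfold cd
            ext <;> simp [Ne.symm h2]
  have hT : T4 fun v => H (b7_i j l v) := by
    refine ⟨hH.smooth.comp (b7_i j l).contDiff, fun v a b => ?_, fun T γ hT hT1 hO hc t => ?_⟩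
    · show H (b7_i j l (v + zv a b)) = H (b7_i j l v)
      rw [map_add, b7_zv hjl]
      exact hH.per _ _ _
    · have hG : ∀ t : ℝ, HasDerivAt (fun t => b7_i j l (γ t)) (jn (fderiv ℝ H (b7_i j l (γ t)))) t := by
        intro t
        rw [hj]
        exact ((b7_i j l).hasFDerivAt.comp_hasDerivAt t (hO t))
      have hcl : ∃ a b : Fin n → ℤ, b7_i j l (γ T) = b7_i j l (γ 0) + zn a b := by
        obtain ⟨a, b, e⟩ := hc
        refine ⟨fun i => if i = j then a 0 else if i = l then a 1 else 0,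
          fun i => if i = j then b 0 else if i = l then b 1 else 0, ?_⟩
        rw [e, map_add, b7_zv hjl]
      exact b7_inj hjl (hH.orb T (fun t => b7_i j l (γ t)) hT hT1 hG hcl t)
  have hK : ∀ z : E n, H z = H (b7_i j l (![z.1 j, z.1 l], ![z.2 j, z.2 l])) := by
    intro z
    apply hdep
    · rw [b7_cdj hjl]
      rfl
    · rw [b7_cdl hjl]
      rfl
  have hu' : ((![u.1 j, u.1 l], ![u.2 j, u.2 l]) : E4) ≠ 0 := by
    intro h
    apply hu
    have e1 := congrArg Prod.fst h
    have e2 := congrArg Prod.snd h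
    have a1 := congrFun e1 0
    have a2 := congrFun e1 1
    have a3 := congrFun e2 0
    have a4 := congrFun e2 1
    simp at a1 a2 a3 a4
    unfold cd
    exact ⟨Prod.ext a1 a3, Prod.ext a2 a4⟩
  have hinv' : ∀ (v : E4) (t : ℝ), H (b7_i j l (v + t • ((![u.1 j, u.1 l], ![u.2 j, u.2 l]) : E4))) =
      H (b7_i j l v) := by
    intro v t
    rw [← hinv (b7_i j l v) t, map_add, map_smul]
    apply hdep
    · have e := b7_cdj hjl ((![u.1 j, u.1 l], ![u.2 j, u.2 l]) : E4)
      unfold cd at e ⊢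
      have e1 := congrArg Prod.fst e
      have e2 := congrArg Prod.snd e
      simp at e1 e2
      ext
      · simp [e1]
      · simp [e2]
    · have e := b7_cdl hjl ((![u.1 j, u.1 l], ![u.2 j, u.2 l]) : E4)
      unfold cd at e ⊢
      have e1 := congrArg Prod.fst e
      have e2 := congrArg Prod.snd e
      simp at e1 e2
      ext
      · simp [e1]
      · simp [e2]
  rw [hK z, hK w]
  exact H25S.main hT hu' hinv' _ _

end H86T
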