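import Pool.Agent.Lib.H25S.A3

/-!
# H86T: Hamiltonians on `T^{2n}` which depend on some of the planes `(x_i, y_i)` only through one function `f_i`
(MP_dec836): definitions
-/

namespace H86T

open MeasureTheory H83D H25S Set Filter Topology

/-- `τ` is a closing time (modulo `ℤ²`) of a non-constant orbit of `f` on the level `c`. -/
def Clo (f : ℝ × ℝ → ℝ) (c τ : ℝ) : Prop :=
  0 < τ ∧ ∃ (γ : ℝ → ℝ × ℝ) (k : ℤ × ℤ), Orb f γ ∧ f (γ 0) = c ∧ γ τ = γ 0 + iv k ∧ ¬ Crit f (γ 0)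

/-- The maximum of `G s` on `S`. -/
noncomputable def MM {Q : Type} (S : Set Q) (G : ℝ → Q → ℝ) (s : ℝ) : ℝ := sSup (G s '' S)

/-- The averaged difference quotient of `M`. -/
noncomputable def DQ (M : ℝ → ℝ) (ε u : ℝ) : ℝ := ∫ s in (0 : ℝ)..1, (M (u + ε * s + ε) - M (u + ε * s)) / ε

/-- A family of functions on a compact set, with the parameter `s` and the derivative `G'` with respect to `s`. -/
structure Par {Q : Type} [PseudoMetricSpace Q] (S : Set Q) (G G' : ℝ → Q → ℝ) : Prop where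
  cpt : IsCompact S
  ne : S.Nonempty
  cG : Continuous fun p : ℝ × Q => G p.1 p.2
  cG' : Continuous fun p : ℝ × Q => G' p.1 p.2
  der : ∀ (s : ℝ) (q : Q), HasDerivAt (fun s => G s q) (G' s q) s

/-- `ℝ^{2n}`, points `(x, y)`. -/
abbrev E (n : ℕ) : Type := (Fin n → ℝ) × (Fin n → ℝ)

/-- The Hamiltonian vector of a linear form: `(∂/∂y, - ∂/∂x)`. -/
noncomputable def jn {n : ℕ} (l : E n →L[ℝ] ℝ) : E n :=
  ((fun i => l ((0 : Fin n → ℝ), (Pi.single i (1 : ℝ) : Fin n → ℝ))),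
    (fun i => -l ((Pi.single i (1 : ℝ) : Fin n → ℝ), (0 : Fin n → ℝ))))

/-- Integral vectors. -/
def zn {n : ℕ} (a b : Fin n → ℤ) : E n := ((fun i => (a i : ℝ)), (fun i => (b i : ℝ)))

/-- Hamiltonians on `T^{2n}` without fast orbits. -/
structure NF {n : ℕ} (H : E n → ℝ) : Prop where
  smooth : ContDiff ℝ 2 H
  per : ∀ (z : E n) (a b : Fin n → ℤ), H (z + zn a b) = H z
  orb : ∀ (T : ℝ) (γ : ℝ → E n), 0 < T → T ≤ 1 → (∀ t : ℝ, HasDerivAt γ (jn (fderiv ℝ H (γ t))) t) →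
    (∃ a b : Fin n → ℤ, γ T = γ 0 + zn a b) → ∀ t : ℝ, γ t = γ 0

/-- The plane coordinate `i`. -/
def cd {n : ℕ} (i : Fin n) (z : E n) : ℝ × ℝ := (z.1 i, z.2 i)

/-- Replace the plane coordinate `i` by `p`. -/
def up {n : ℕ} (i : Fin n) (p : ℝ × ℝ) (z : E n) : E n := (Function.update z.1 i p.1, Function.update z.2 i p.2)

/-- Replace the plane coordinates in `A` by those of `p`. -/
def frz {n : ℕ} (A : Finset (Fin n)) (p : Fin n → ℝ × ℝ) (z : E n) : E n :=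
  ((fun i => if i ∈ A then (p i).1 else z.1 i), (fun i => if i ∈ A then (p i).2 else z.2 i))

/-- `H` depends on the plane coordinate `i` only through `f`. -/
structure Thr {n : ℕ} (H : E n → ℝ) (i : Fin n) (f : ℝ × ℝ → ℝ) (G : ℝ → E n → ℝ) : Prop where
  nf : NF H
  p2 : P2 f
  f3 : ContDiff ℝ 3 f
  G2 : ContDiff ℝ 2 fun p : ℝ × E n => G p.1 p.2
  eq : ∀ z, H z = G (f (cd i z)) z
  ind : ∀ (s : ℝ) (p : ℝ × ℝ) (z : E n), G s (up i p z) = G s z

/-- `H` depends on the plane coordinates `i ∈ A` only through `f i`. -/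
structure Itg {n : ℕ} (H : E n → ℝ) (A : Finset (Fin n)) (f : Fin n → ℝ × ℝ → ℝ) (G : (Fin n → ℝ) → E n → ℝ) :
    Prop where
  nf : NF H
  p2 : ∀ i ∈ A, P2 (f i)
  f3 : ∀ i ∈ A, ContDiff ℝ 3 (f i)
  G2 : ContDiff ℝ 2 fun p : (Fin n → ℝ) × E n => G p.1 p.2
  eq : ∀ z, H z = G (fun i => if i ∈ A then f i (cd i z) else 0) (frz A 0 z)

end H86T
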