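import Pool.Agent.Lib.H86T.B5
import Pool.Agent.Lib.H86T.B6

/-!
# H86T: assembly
-/

namespace H86T

open MeasureTheory H83D H25S Set Filter Topology

/-- The flow hypothesis of the frozen statement S14095: no non-constant orbit of the Hamiltonian flow of `H` closes
modulo `ℤ^{2n}` in a time `T ≤ 1`. -/
def NoFast {n : ℕ} (H : (Fin n → ℝ) × (Fin n → ℝ) → ℝ) : Prop :=
  ∀ T : ℝ, ∀ γ : ℝ → (Fin n → ℝ) × (Fin n → ℝ), 0 < T → T ≤ 1 →
    (∀ t : ℝ, HasDerivAt γ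
      ((fun i => fderiv ℝ H (γ t) ((0 : Fin n → ℝ), (Pi.single i (1 : ℝ) : Fin n → ℝ))),
       (fun i => - fderiv ℝ H (γ t) ((Pi.single i (1 : ℝ) : Fin n → ℝ), (0 : Fin n → ℝ)))) t) →
    (∃ a b : Fin n → ℤ, γ T = γ 0 + ((fun i => (a i : ℝ)), (fun i => (b i : ℝ)))) →
    ∀ t : ℝ, γ t = γ 0

theorem nf_noFast {n : ℕ} {H : E n → ℝ} (h : NF H) : NoFast H :=
  fun T γ h1 h2 h3 h4 => h.orb T γ h1 h2 h3 h4

theorem noFast_nf {n : ℕ} {H : E n → ℝ} (hs : ContDiff ℝ 2 H)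
    (hper : ∀ z : (Fin n → ℝ) × (Fin n → ℝ), ∀ a b : Fin n → ℤ,
      H (z + ((fun i => (a i : ℝ)), (fun i => (b i : ℝ)))) = H z) (h : NoFast H) : NF H :=
  ⟨hs, hper, fun T γ h1 h2 h3 h4 => h T γ h1 h2 h3 h4⟩

/-- a periodic function of class `C²` has a critical point -/
theorem crit_ex {f : ℝ × ℝ → ℝ} (hf : P2 f) : ∃ p, Crit f p := by
  have hne : (Icc (0 : ℝ) 1 ×ˢ Icc (0 : ℝ) 1).Nonempty := ⟨(0, 0), ⟨by simp, by simp⟩⟩
  obtain ⟨p, -, hmax⟩ := (isCompact_Icc.prod isCompact_Icc :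
    IsCompact (Icc (0 : ℝ) 1 ×ˢ Icc (0 : ℝ) 1)).exists_isMaxOn hne hf.smooth.continuous.continuousOn
  have hg : ∀ z, f z ≤ f p := by
    intro z
    obtain ⟨z', k, hz', rfl⟩ := a3_red z
    rw [hf.per]
    exact hmax hz'
  refine ⟨p, (crit_iff f p).2 ?_⟩
  exact IsLocalMax.fderiv_eq_zero (Filter.Eventually.of_forall hg)

/-- The data of the theorem. -/
structure Dat {n : ℕ} (H : E n → ℝ) (A : Finset (Fin n)) (f : Fin n → ℝ × ℝ → ℝ)
    (G : (Fin n → ℝ) × E n → ℝ) : Prop where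
  smooth : ContDiff ℝ 2 H
  per : ∀ z : (Fin n → ℝ) × (Fin n → ℝ), ∀ a b : Fin n → ℤ,
    H (z + ((fun i => (a i : ℝ)), (fun i => (b i : ℝ)))) = H z
  orb : NoFast H
  fs : ∀ i ∈ A, ContDiff ℝ 3 (f i)
  fp : ∀ i ∈ A, ∀ (x y : ℝ) (a b : ℤ), f i (x + a, y + b) = f i (x, y)
  Gs : ContDiff ℝ 2 G
  eq : ∀ z, H z = G ((fun i => if i ∈ A then f i (z.1 i, z.2 i) else 0), frz A 0 z)

theorem dat_itg {n : ℕ} {H : E n → ℝ} {A : Finset (Fin n)} {f : Fin n → ℝ × ℝ → ℝ} {G : (Fin n → ℝ) × E n → ℝ}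
    (h : Dat H A f G) : Itg H A f (fun s z => G (s, z)) := by
  refine ⟨noFast_nf h.smooth h.per h.orb, fun i hi => ⟨(h.fs i hi).of_le (by norm_num), ?_⟩, h.fs, h.Gs, h.eq⟩
  intro z k
  have h1 := h.fp i hi z.1 z.2 k.1 k.2
  exact h1

theorem main_a {n : ℕ} {H : E n → ℝ} {A : Finset (Fin n)} {f : Fin n → ℝ × ℝ → ℝ} {G : (Fin n → ℝ) × E n → ℝ}
    (h : Dat H A f G) {p : Fin n → ℝ × ℝ} (hp : ∀ i ∈ A, fderiv ℝ (f i) (p i) = 0) :
    NoFast (fun z => H (frz A p z)) ∧ ∀ C : ℝ, (∀ z w : E n, H (frz A p z) - H (frz A p w) ≤ C) →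
      ∀ z w, H z - H w ≤ 66 * A.card + C := by
  have hc : ∀ i ∈ A, Crit (f i) (p i) := fun i hi => (crit_iff _ _).2 (hp i hi)
  exact ⟨nf_noFast (itg_nf (dat_itg h) hc), fun C hC z w => itg_step (dat_itg h) hc hC z w⟩

theorem main_b {n : ℕ} {H : E n → ℝ} {A : Finset (Fin n)} {f : Fin n → ℝ × ℝ → ℝ} {G : (Fin n → ℝ) × E n → ℝ}
    (h : Dat H A f G) {j : Fin n} (hj : ∀ i, i ∈ A ↔ i ≠ j) (z w : E n) : H z - H w ≤ 33 * (2 * n - 1) := by
  have hI := dat_itg h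
  choose! p hp using fun i (hi : i ∈ A) => crit_ex (hI.p2 i hi)
  have h1 := itg_step hI hp (C := 33) (fun a b => one_case (itg_nf hI hp) (j := j) (fun z w hzw => by
    have e : frz A p z = frz A p w := by
      have e1 : z.1 j = w.1 j := congrArg Prod.fst hzw
      have e2 : z.2 j = w.2 j := congrArg Prod.snd hzw
      refine Prod.ext (funext fun i => ?_) (funext fun i => ?_)
      · show (if i ∈ A then (p i).1 else z.1 i) = if i ∈ A then (p i).1 else w.1 i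
        by_cases hi : i ∈ A
        · rw [if_pos hi, if_pos hi]
        · rw [if_neg hi, if_neg hi]
          have : i = j := by
            by_contra hij
            exact hi ((hj i).2 hij)
          rw [this, e1]
      · show (if i ∈ A then (p i).2 else z.2 i) = if i ∈ A then (p i).2 else w.2 i
        by_cases hi : i ∈ A
        · rw [if_pos hi, if_pos hi]
        · rw [if_neg hi, if_neg hi]
          have : i = j := by
            by_contra hij
            exact hi ((hj i).2 hij)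
          rw [this, e2]
    show H (frz A p z) = H (frz A p w)
    rw [e]) a b) z w
  have hA : A = Finset.univ.erase j := by
    ext i
    rw [hj i, Finset.mem_erase]
    simp
  have hn : 0 < n := Fin.pos j
  have hcard : (A.card : ℝ) = n - 1 := by
    rw [hA, Finset.card_erase_of_mem (Finset.mem_univ j), Finset.card_univ, Fintype.card_fin, Nat.cast_sub hn, Nat.cast_one]
  rw [hcard] at h1
  linarith

end H86T
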