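import Pool.Agent.Lib.H86T.Defs

/-!
# Chunk T1 (M)
`null_zero`: the set is the union of `{g = 0, d1 g ≠ 0}` and `{g = 0, d2 g ≠ 0}`, both measurable (closed and open, `g` is `C¹`).
`Measure.measure_prod_null` (`volume` on `ℝ × ℝ` is the product): every slice `{y | g (x, y) = 0 ∧ d2 g (x, y) ≠ 0}` is countable,
because all its points are isolated in it (`HasDerivAt.eventually_ne`; a set with the discrete topology in a second countable
space is countable). For `d1` use the swapped slices (`measure_prod_null` for `Measure.prod_swap`, or apply the first case to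
`g ∘ Prod.swap` and `measurePreserving_swap`).
`taylor2`, `taylor3`: on the segment `[x, y]`, `r = ‖y - x‖`: `K` = bound of the next derivative on `B` (compact);
`Convex.norm_image_sub_le_of_norm_fderiv_le` on `segment ℝ x y` (points `u` of it have `‖u - x‖ ≤ r`): `‖D²f u‖ ≤ K r`,
`‖Df u‖ ≤ K r²`, `|f y - f x| ≤ K r³`.
-/

namespace H86T

open MeasureTheory H83D H25S Set Filter Topology

private theorem T1_countable (h : ℝ → ℝ) : {y : ℝ | h y = 0 ∧ ∃ h', HasDerivAt h h' y ∧ h' ≠ 0}.Countable := by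
  set s : Set ℝ := {y : ℝ | h y = 0 ∧ ∃ h', HasDerivAt h h' y ∧ h' ≠ 0} with hs
  have h1 : s ⊆ {x ∈ s | 𝓝[s ∩ Ioi x] x = ⊥} := by
    intro x hx
    refine ⟨hx, ?_⟩
    obtain ⟨-, h', hd, hne⟩ := hx
    have h2 : ∀ᶠ z in 𝓝[≠] x, h z ≠ 0 := hd.eventually_ne hne
    have h3 : 𝓝[s ∩ Ioi x] x ≤ 𝓝[≠] x := nhdsWithin_mono _ fun z hz => ne_of_gt hz.2
    have h4 : ∀ᶠ z in 𝓝[s ∩ Ioi x] x, z ∈ s ∩ Ioi x := self_mem_nhdsWithin
    have h5 : ∀ᶠ z in 𝓝[s ∩ Ioi x] x, False := by
      filter_upwards [h3 h2, h4] with z hz1 hz2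
      exact hz1 hz2.1.1
    exact eventually_false_iff_eq_bot.1 h5
  exact countable_setOfPred_isolated_right_within.mono h1

private theorem T1_two {g : ℝ × ℝ → ℝ} (hg : ContDiff ℝ 1 g) : volume {z | g z = 0 ∧ d2 g z ≠ 0} = 0 := by
  have hc : Continuous (d2 g) := (hg.continuous_fderiv (by norm_num)).clm_apply continuous_const
  have hm : MeasurableSet {z | g z = 0 ∧ d2 g z ≠ 0} :=
    (isClosed_eq hg.continuous continuous_const).measurableSet.inter
      ((isOpen_ne_fun hc continuous_const).measurableSet)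
  rw [Measure.volume_eq_prod, Measure.measure_prod_null hm]
  refine Filter.Eventually.of_forall fun x => ?_
  refine Set.Countable.measure_zero ((T1_countable fun y => g (x, y)).mono ?_) _
  rintro y ⟨h1, h2⟩
  refine ⟨h1, _, ?_, h2⟩
  have h3 : HasFDerivAt g (fderiv ℝ g (x, y)) (x, y) :=
    (hg.differentiable (by norm_num) (x, y)).hasFDerivAt
  have h4 : HasDerivAt (fun y : ℝ => ((x, y) : ℝ × ℝ)) ((0 : ℝ), (1 : ℝ)) y :=
    (hasDerivAt_const y x).prodMk (hasDerivAt_id y)
  exact h3.comp_hasDerivAt y h4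

private theorem T1_one {g : ℝ × ℝ → ℝ} (hg : ContDiff ℝ 1 g) : volume {z | g z = 0 ∧ d1 g z ≠ 0} = 0 := by
  have hc : Continuous (d1 g) := (hg.continuous_fderiv (by norm_num)).clm_apply continuous_const
  have hm : MeasurableSet {z | g z = 0 ∧ d1 g z ≠ 0} :=
    (isClosed_eq hg.continuous continuous_const).measurableSet.inter
      ((isOpen_ne_fun hc continuous_const).measurableSet)
  have hsw : MeasurePreserving (Prod.swap : ℝ × ℝ → ℝ × ℝ) volume volume := by
    rw [Measure.volume_eq_prod]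
    exact Measure.measurePreserving_swap
  rw [← hsw.measure_preimage hm.nullMeasurableSet]
  have hm' : MeasurableSet (Prod.swap ⁻¹' {z : ℝ × ℝ | g z = 0 ∧ d1 g z ≠ 0}) := measurable_swap hm
  rw [Measure.volume_eq_prod, Measure.measure_prod_null hm']
  refine Filter.Eventually.of_forall fun x => ?_
  refine Set.Countable.measure_zero ((T1_countable fun y => g (y, x)).mono ?_) _
  rintro y ⟨h1, h2⟩
  refine ⟨h1, _, ?_, h2⟩
  have h3 : HasFDerivAt g (fderiv ℝ g (y, x)) (y, x) :=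
    (hg.differentiable (by norm_num) (y, x)).hasFDerivAt
  have h4 : HasDerivAt (fun y : ℝ => ((y, x) : ℝ × ℝ)) ((1 : ℝ), (0 : ℝ)) y :=
    (hasDerivAt_id y).prodMk (hasDerivAt_const y x)
  exact h3.comp_hasDerivAt y h4

theorem null_zero {g : ℝ × ℝ → ℝ} (hg : ContDiff ℝ 1 g) : volume {z | g z = 0 ∧ (d1 g z ≠ 0 ∨ d2 g z ≠ 0)} = 0 := by
  have h : {z | g z = 0 ∧ (d1 g z ≠ 0 ∨ d2 g z ≠ 0)} =
      {z | g z = 0 ∧ d1 g z ≠ 0} ∪ {z | g z = 0 ∧ d2 g z ≠ 0} := by
    ext z
    simp only [mem_ofPred_eq, mem_union]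
    tauto
  rw [h]
  exact measure_union_null (T1_one hg) (T1_two hg)

end H86T
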