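import Pool.Agent.Lib.H86T.Defs

/-!
# Chunk T10 (M): a cut-off function near a compact null set
`U ⊇ V` open with `volume U ≤ δ` (`Set.exists_isOpen_le_add` or outer regularity), `V ⊆ W ⊆ closure W ⊆ U`, `W` open; a smooth `χ` with
`χ = 0` on `closure W`, `χ = 1` on `Uᶜ`, values in `[0, 1]` (`exists_contMDiff_zero_iff_one_iff_of_isClosed`, `exists_smooth_zero_one_of_isClosed`,
or a sum of bump functions). `J = Icc a b \ W`.
-/

namespace H86T

open MeasureTheory H83D H25S Set Filter Topology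

theorem cutoff {V : Set ℝ} (hV : IsCompact V) (h0 : volume V = 0) (a b : ℝ) {δ : ℝ} (hδ : 0 < δ) :
    ∃ (χ : ℝ → ℝ) (J : Set ℝ), ContDiff ℝ 1 χ ∧ (∀ u, 0 ≤ χ u ∧ χ u ≤ 1) ∧ IsCompact J ∧ Disjoint J V ∧
      (∀ u ∈ Icc a b, χ u ≠ 0 → u ∈ J) ∧ volume (Icc a b ∩ {u | χ u ≠ 1}) ≤ ENNReal.ofReal δ := by
  have h1 : volume V < ENNReal.ofReal δ := by
    rw [h0]
    exact ENNReal.ofReal_pos.2 hδ
  obtain ⟨U, hVU, hU, hUδ⟩ := V.exists_isOpen_lt_of_lt _ h1
  obtain ⟨W, hW, hVW, hWU, -⟩ := exists_open_between_and_isCompact_closure hV hU hVU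
  obtain ⟨χ, hχ, hr, hz, ho⟩ := exists_contMDiff_zero_iff_one_iff_of_isClosed (modelWithCornersSelf ℝ ℝ)
    (isClosed_closure (s := W)) hU.isClosed_compl
    (disjoint_left.2 fun x hx hx' => hx' (hWU hx))
  refine ⟨χ, Icc a b \ W, ?_, fun u => ?_, isCompact_Icc.diff hW, ?_, fun u hu hχu => ?_, ?_⟩
  · exact (contMDiff_iff_contDiff.1 hχ).of_le (by exact_mod_cast le_top)
  · exact hr (mem_range_self u)
  · exact disjoint_left.2 fun x hx hx' => hx.2 (hVW hx')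
  · exact ⟨hu, fun h => hχu ((hz u).1 (subset_closure h))⟩
  · refine (measure_mono fun u hu => ?_).trans hUδ.le
    by_contra h
    exact hu.2 ((ho u).1 h)

end H86T
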