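import Pool.Agent.Lib.H86T.Defs
import Pool.Agent.Lib.H25S.F4

/-!
# Chunk T11 (M): one degree of freedom
`osc1`: `ham_osc` for the family `fun _ z => K z` (`dS = 0`; `Ham.orb`: `T ≤ 1`, `γ (t + T) = γ t + iv k`, so `h` applies).
`osc_comp`: `K = N ∘ f` is `P2`; `fderiv K z = N' (f z) • fderiv f z`. Let `γ` be an orbit of `K` with `γ (t + T) = γ t + iv k`, `0 < T ≤ 1`,
`ν = N' (f (γ 0))`. `f` is constant on `γ` (derivative `0`). If `ν = 0` then `Crit K (γ 0)`. Otherwise `ζ t = γ (t / ν)` is an orbit of `f` with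
`ζ (t + |ν| T) = ζ t + iv (± k)`, so `Clo f (f (γ 0)) (|ν| T)` (`¬ Crit` by `hc`), hence `|ν| < |ν| T ≤ |ν|`, contradiction.
-/

namespace H86T

open MeasureTheory H83D H25S Set Filter Topology

theorem osc1 {K : ℝ × ℝ → ℝ} (hK : P2 K)
    (h : ∀ (γ : ℝ → ℝ × ℝ) (T : ℝ) (k : ℤ × ℤ), 0 < T → T ≤ 1 → Orb K γ → (∀ t, γ (t + T) = γ t + iv k) → Crit K (γ 0))
    (z w : ℝ × ℝ) : K z - K w ≤ 33 := by
  have hH : Ham (fun (_ : ℝ) (z : ℝ × ℝ) => K z) := by
    refine ⟨hK.smooth.comp contDiff_snd, fun s z k => hK.per z k, fun s z => rfl, fun s z _ => ?_, ?_⟩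
    · have e : dS (fun (_ : ℝ) (z : ℝ × ℝ) => K z) s z = 0 := by
        unfold dS
        exact deriv_const s (K z)
      rw [e, abs_zero]
      exact one_pos
    · intro s γ T k n hT hT1 hO hp _
      exact h γ T k hT hT1 hO hp
  exact ham_osc hH 0 0 z w

private theorem t11_fd {f : ℝ × ℝ → ℝ} (hf : P2 f) {N N' : ℝ → ℝ} (hd : ∀ u, HasDerivAt N (N' u) u) (z v : ℝ × ℝ) :
    fderiv ℝ (fun z => N (f z)) z v = N' (f z) * fderiv ℝ f z v := by
  have h1 : HasFDerivAt f (fderiv ℝ f z) z := (hf.smooth.differentiable (by norm_num) z).hasFDerivAt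
  have h2 : HasFDerivAt (fun z => N (f z)) (N' (f z) • fderiv ℝ f z) z := (hd (f z)).comp_hasFDerivAt z h1
  rw [h2.fderiv]
  rfl

theorem osc_comp {f : ℝ × ℝ → ℝ} (hf : P2 f) {N N' : ℝ → ℝ} (hN : ContDiff ℝ 2 N) (hd : ∀ u, HasDerivAt N (N' u) u)
    (hc : ∀ z, N' (f z) ≠ 0 → ¬ Crit f z ∧ ∀ τ, Clo f (f z) τ → |N' (f z)| < τ) (z w : ℝ × ℝ) :
    N (f z) - N (f w) ≤ 33 := by
  have hK : P2 (fun z => N (f z)) :=
    ⟨hN.comp hf.smooth, fun z k => by
      show N (f (z + iv k)) = N (f z)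
      rw [hf.per]⟩
  have e1 : ∀ x, d1 (fun z => N (f z)) x = N' (f x) * d1 f x := fun x => t11_fd hf hd x (1, 0)
  have e2 : ∀ x, d2 (fun z => N (f z)) x = N' (f x) * d2 f x := fun x => t11_fd hf hd x (0, 1)
  refine osc1 hK ?_ z w
  intro γ T k hT hT1 hO hp
  by_cases hν : N' (f (γ 0)) = 0
  · refine ⟨?_, ?_⟩
    · rw [e1, hν, zero_mul]
    · rw [e2, hν, zero_mul]
  exfalso
  -- `f` is constant on `γ`
  have hfd : ∀ t, HasDerivAt (fun t => f (γ t)) 0 t := by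
    intro t
    have h1 : HasFDerivAt f (fderiv ℝ f (γ t)) (γ t) := (hf.smooth.differentiable (by norm_num) (γ t)).hasFDerivAt
    have h2 := h1.comp_hasDerivAt t (hO t)
    rw [a3_fd, e1, e2] at h2
    have h3 : N' (f (γ t)) * d2 f (γ t) * d1 f (γ t) + -(N' (f (γ t)) * d1 f (γ t)) * d2 f (γ t) = 0 := by ring
    rw [h3] at h2
    exact h2
  have hfc : ∀ t, f (γ t) = f (γ 0) := fun t =>
    is_const_of_deriv_eq_zero (fun t => (hfd t).differentiableAt) (fun t => (hfd t).deriv) t 0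
  obtain ⟨ν, hνe⟩ : ∃ ν, ν = N' (f (γ 0)) := ⟨_, rfl⟩
  have hν0 : ν ≠ 0 := by
    rw [hνe]
    exact hν
  have hζ : Orb f (fun t => γ (t / ν)) := by
    intro t
    have h1 : HasDerivAt (fun t : ℝ => t / ν) (1 / ν) t := (hasDerivAt_id t).div_const ν
    have h2 := (hO (t / ν)).scomp t h1
    have h3 : (1 / ν) • ((d2 (fun z => N (f z)) (γ (t / ν)), -d1 (fun z => N (f z)) (γ (t / ν))) : ℝ × ℝ) =
        (d2 f (γ (t / ν)), -d1 f (γ (t / ν))) := by
      rw [e1, e2, hfc (t / ν), ← hνe]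
      ext
      · show (1 / ν) * (ν * d2 f (γ (t / ν))) = d2 f (γ (t / ν))
        field_simp
      · show (1 / ν) * (-(ν * d1 f (γ (t / ν)))) = -d1 f (γ (t / ν))
        field_simp
    rw [h3] at h2
    exact h2
  have hclo : Clo f (f (γ 0)) (|ν| * T) := by
    have hz : γ ((0 : ℝ) / ν) = γ 0 := by rw [zero_div]
    refine ⟨mul_pos (abs_pos.2 hν0) hT, fun t => γ (t / ν), ?_⟩
    rcases lt_or_gt_of_ne hν0 with hn | hn
    · refine ⟨-k, hζ, ?_, ?_, ?_⟩
      · show f (γ (0 / ν)) = f (γ 0)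
        rw [hz]
      · show γ (|ν| * T / ν) = γ (0 / ν) + iv (-k)
        have h1 : |ν| * T / ν = -T := by
          rw [abs_of_neg hn]
          field_simp
        have h2 := hp (-T)
        rw [neg_add_cancel] at h2
        have h3 : iv (-k) = -iv k := by
          unfold iv
          ext <;> simp
        rw [h1, hz, h2, h3, add_neg_cancel_right]
      · show ¬ Crit f (γ (0 / ν))
        rw [hz]
        exact (hc (γ 0) hν).1
    · refine ⟨k, hζ, ?_, ?_, ?_⟩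
      · show f (γ (0 / ν)) = f (γ 0)
        rw [hz]
      · show γ (|ν| * T / ν) = γ (0 / ν) + iv k
        have h1 : |ν| * T / ν = T := by
          rw [abs_of_pos hn]
          field_simp
        have h2 := hp 0
        rw [zero_add] at h2
        rw [h1, hz, h2]
      · show ¬ Crit f (γ (0 / ν))
        rw [hz]
        exact (hc (γ 0) hν).1
  have h4 := (hc (γ 0) hν).2 _ hclo
  rw [← hνe] at h4
  have h5 : |ν| * T ≤ |ν| * 1 := mul_le_mul_of_nonneg_left hT1 (abs_nonneg ν)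
  linarith

end H86T
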