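import Pool.Agent.Lib.H86T.Defs

/-!
# Chunk T5 (S/M): limits of closing orbits
`γ'` from `orb_ex`. `dist_le_of_trajectories_ODE` (Lipschitz constant from `a3_lip`): `dist (γ n t) (γ' t) ≤ ‖γ n 0 - z‖ exp (K t)` for `t ≥ 0`.
So `iv (k n) = γ n (τ n) - γ n 0 → γ' T - z`, and a limit of integral vectors is integral (`Int.isClosedEmbedding_coe_real`,
closed range in each coordinate).
-/

namespace H86T

open MeasureTheory H83D H25S Set Filter Topology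

private theorem t5_dist {f : ℝ × ℝ → ℝ} {K : NNReal} (hK : LipschitzWith K (a3_X f)) {γ γ' : ℝ → ℝ × ℝ}
    (h : Orb f γ) (h' : Orb f γ') {t : ℝ} (ht : 0 ≤ t) :
    dist (γ t) (γ' t) ≤ dist (γ 0) (γ' 0) * Real.exp (K * t) := by
  have h1 := dist_le_of_trajectories_ODE (v := fun _ => a3_X f) (K := K) (f := γ) (g := γ') (a := 0) (b := t)
    (δ := dist (γ 0) (γ' 0)) (fun _ => hK) (orb_cont h).continuousOn (fun s _ => (h s).hasDerivWithinAt)
    (orb_cont h').continuousOn (fun s _ => (h' s).hasDerivWithinAt) le_rfl t ⟨ht, le_rfl⟩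
  rwa [sub_zero] at h1

private theorem t5_int {u : ℕ → ℤ} {x : ℝ} (h : Tendsto (fun n => (u n : ℝ)) atTop (𝓝 x)) : ∃ a : ℤ, (a : ℝ) = x :=
  Int.isClosedEmbedding_coe_real.isClosed_range.mem_of_tendsto h (Eventually.of_forall fun n => ⟨u n, rfl⟩)

theorem clo_lim {f : ℝ × ℝ → ℝ} (hf : P2 f) {γ : ℕ → ℝ → ℝ × ℝ} {k : ℕ → ℤ × ℤ} {τ : ℕ → ℝ} {z : ℝ × ℝ} {T : ℝ}
    (h : ∀ n, Orb f (γ n)) (h0 : ∀ n, 0 ≤ τ n) (hz : Tendsto (fun n => γ n 0) atTop (𝓝 z)) (hT : Tendsto τ atTop (𝓝 T))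
    (hk : ∀ n, γ n (τ n) = γ n 0 + iv (k n)) :
    ∃ (γ' : ℝ → ℝ × ℝ) (k' : ℤ × ℤ), Orb f γ' ∧ γ' 0 = z ∧ γ' T = z + iv k' := by
  obtain ⟨K, C, hK, -⟩ := a3_lip hf
  obtain ⟨γ', hγ', hγ0⟩ := orb_ex hf z
  have e1 : Tendsto (fun n => dist (γ n 0) z * Real.exp (K * τ n)) atTop (𝓝 0) := by
    have h1 := (tendsto_iff_dist_tendsto_zero.1 hz).mul
      ((Real.continuous_exp.tendsto _).comp (hT.const_mul (K : ℝ)))
    rw [zero_mul] at h1
    exact h1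
  have e2 : Tendsto (fun n => dist (γ' (τ n)) (γ' T)) atTop (𝓝 0) :=
    tendsto_iff_dist_tendsto_zero.1 (((orb_cont hγ').tendsto T).comp hT)
  have e3 : Tendsto (fun n => γ n (τ n)) atTop (𝓝 (γ' T)) := by
    rw [tendsto_iff_dist_tendsto_zero]
    have e4 := e1.add e2
    rw [add_zero] at e4
    refine squeeze_zero (fun n => dist_nonneg) (fun n => ?_) e4
    have h1 := t5_dist hK (h n) hγ' (h0 n)
    rw [hγ0] at h1
    exact (dist_triangle _ (γ' (τ n)) _).trans (add_le_add h1 le_rfl)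
  have e5 : Tendsto (fun n => iv (k n)) atTop (𝓝 (γ' T - z)) := by
    have h1 := e3.sub hz
    refine h1.congr fun n => ?_
    rw [hk n, add_sub_cancel_left]
  obtain ⟨a, ha⟩ := t5_int (u := fun n => (k n).1) ((continuous_fst.tendsto _).comp e5)
  obtain ⟨b, hb⟩ := t5_int (u := fun n => (k n).2) ((continuous_snd.tendsto _).comp e5)
  refine ⟨γ', (a, b), hγ', hγ0, ?_⟩
  have e6 : iv (a, b) = γ' T - z := Prod.ext ha hb
  rw [e6, add_sub_cancel]

end H86T
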