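import Pool.Agent.Lib.H86T.Defs

/-!
# Chunk T6 (M): the maximum function
`mm_quot`: `q` a maximiser at `t` or at `t'` (the one with the larger value of `MM`): if `MM t ≥ MM t'` take `q` maximal at `t`:
`0 ≤ MM t - MM t' ≤ G t q - G t' q = (t - t') G' ξ q` (mean value theorem, `exists_hasDerivAt_eq_slope`); same with `t, t'` exchanged.
`mm_lip`: bound of `G'` on the compact set `Icc a b ×ˢ S`. `mm_cont` from `mm_lip`.
-/

namespace H86T

open MeasureTheory H83D H25S Set Filter Topology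

variable {Q : Type} [PseudoMetricSpace Q] {S : Set Q} {G G' : ℝ → Q → ℝ}

private theorem h27_greatest (h : Par S G G') (s : ℝ) : ∃ q ∈ S, (∀ q' ∈ S, G s q' ≤ G s q) ∧
    IsGreatest (G s '' S) (G s q) := by
  have hc : Continuous (G s) := h.cG.comp (continuous_const.prodMk continuous_id)
  obtain ⟨q, hq, hmax⟩ := h.cpt.exists_isMaxOn h.ne hc.continuousOn
  refine ⟨q, hq, fun q' hq' => hmax hq', ⟨q, hq, rfl⟩, ?_⟩
  rintro _ ⟨q', hq', rfl⟩
  exact hmax hq'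

private theorem h27_slope (h : Par S G G') (q : Q) {a b : ℝ} (hab : a ≠ b) :
    ∃ ξ ∈ uIcc a b, G a q - G b q = G' ξ q * (a - b) := by
  have key : ∀ a b : ℝ, a < b → ∃ ξ ∈ Ioo a b, G b q - G a q = G' ξ q * (b - a) := by
    intro a b hlt
    obtain ⟨ξ, hξ, he⟩ := exists_hasDerivAt_eq_slope (fun s => G s q) (fun s => G' s q) hlt
      (fun x _ => (h.der x q).continuousAt.continuousWithinAt) (fun x _ => h.der x q)
    refine ⟨ξ, hξ, ?_⟩
    rw [he, div_mul_cancel₀ _ (sub_ne_zero.2 hlt.ne')]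
  rcases lt_or_gt_of_ne hab with hlt | hlt
  · obtain ⟨ξ, hξ, he⟩ := key a b hlt
    refine ⟨ξ, ?_, by linear_combination -he⟩
    rw [uIcc_of_le hlt.le]
    exact Ioo_subset_Icc_self hξ
  · obtain ⟨ξ, hξ, he⟩ := key b a hlt
    refine ⟨ξ, ?_, he⟩
    rw [uIcc_of_ge hlt.le]
    exact Ioo_subset_Icc_self hξ

theorem mm_le (h : Par S G G') {q : Q} (hq : q ∈ S) (s : ℝ) : G s q ≤ MM S G s := by
  obtain ⟨q₀, -, -, hg⟩ := h27_greatest h s
  unfold MM
  rw [hg.csSup_eq]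
  exact hg.2 ⟨q, hq, rfl⟩

theorem mm_att (h : Par S G G') (s : ℝ) : ∃ q ∈ S, MM S G s = G s q ∧ ∀ q' ∈ S, G s q' ≤ G s q := by
  obtain ⟨q₀, hq₀, hle, hg⟩ := h27_greatest h s
  exact ⟨q₀, hq₀, hg.csSup_eq, hle⟩

theorem mm_quot (h : Par S G G') {t t' : ℝ} (htt : t ≠ t') : ∃ ξ ∈ uIcc t t', ∃ q ∈ S,
    ((∀ q' ∈ S, G t q' ≤ G t q) ∨ (∀ q' ∈ S, G t' q' ≤ G t' q)) ∧ |MM S G t - MM S G t'| ≤ |G' ξ q| * |t - t'| := by
  rcases le_total (MM S G t') (MM S G t) with hle | hle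
  · obtain ⟨q, hq, he, hmax⟩ := mm_att h t
    obtain ⟨ξ, hξ, hs⟩ := h27_slope h q htt
    refine ⟨ξ, hξ, q, hq, Or.inl hmax, ?_⟩
    have h1 := mm_le h hq t'
    rw [abs_of_nonneg (sub_nonneg.2 hle), ← abs_mul, ← hs]
    refine le_trans ?_ (le_abs_self _)
    rw [he]
    linarith
  · obtain ⟨q, hq, he, hmax⟩ := mm_att h t'
    obtain ⟨ξ, hξ, hs⟩ := h27_slope h q htt
    refine ⟨ξ, hξ, q, hq, Or.inr hmax, ?_⟩
    have h1 := mm_le h hq t
    rw [abs_of_nonpos (sub_nonpos.2 hle), ← abs_mul, ← hs]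
    refine le_trans ?_ (neg_le_abs _)
    rw [he]
    linarith

theorem mm_lip (h : Par S G G') (a b : ℝ) :
    ∃ L : ℝ, 0 ≤ L ∧ ∀ s ∈ Icc a b, ∀ t ∈ Icc a b, |MM S G s - MM S G t| ≤ L * |s - t| := by
  obtain ⟨C, hC⟩ := (isCompact_Icc.prod h.cpt : IsCompact (Icc a b ×ˢ S)).exists_bound_of_continuousOn
    h.cG'.continuousOn
  refine ⟨max C 0, le_max_right _ _, fun s hs t ht => ?_⟩
  rcases eq_or_ne s t with rfl | hne
  · simp
  · obtain ⟨ξ, hξ, q, hq, -, hb⟩ := mm_quot h hne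
    refine hb.trans (mul_le_mul_of_nonneg_right ?_ (abs_nonneg _))
    have h1 : ξ ∈ Icc a b := uIcc_subset_Icc hs ht hξ
    have h2 := hC (ξ, q) ⟨h1, hq⟩
    rw [Real.norm_eq_abs] at h2
    exact h2.trans (le_max_left _ _)

theorem mm_cont (h : Par S G G') : Continuous (MM S G) := by
  rw [continuous_iff_continuousAt]
  intro x
  obtain ⟨L, hL, hlip⟩ := mm_lip h (x - 1) (x + 1)
  have hx : x ∈ Icc (x - 1) (x + 1) := ⟨by linarith, by linarith⟩
  have h1 : LipschitzOnWith (Real.toNNReal L) (MM S G) (Icc (x - 1) (x + 1)) := by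
    refine LipschitzOnWith.of_dist_le_mul fun s hs t ht => ?_
    rw [Real.dist_eq, Real.dist_eq, Real.coe_toNNReal L hL]
    exact hlip s hs t ht
  exact h1.continuousOn.continuousAt (Icc_mem_nhds (by linarith) (by linarith))

end H86T
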