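import Pool.Agent.Lib.H86T.T4
import Pool.Agent.Lib.H86T.T5
import Pool.Agent.Lib.H86T.T6

/-!
# Chunk T7 (M/L): uniformity on a compact set of regular values
By contradiction: for `ε = 1 / (j + 1)` there are `c_j ∈ J`, `τ_j` with `Clo f c_j τ_j` (orbit `γ_j`, shift `k_j`; `γ_j 0` may be taken in the
unit square by `H83D.a3_red`, `orb_add` and the periodicity of `f`), `t_j ≠ t'_j` within `ε` of `c_j`, and
`τ_j |t_j - t'_j| ≤ |MM t_j - MM t'_j| ≤ |G' ξ_j q_j| |t_j - t'_j|` (`mm_quot`), so `τ_j ≤ |G' ξ_j q_j|`, `q_j` a maximiser at `t_j` or `t'_j`.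
All data are in compact sets; for a subsequence `c_j → c ∈ J`, `γ_j 0 → z`, `τ_j → T`, `q_j → q ∈ S`, `ξ_j → c`; `T ≥ δ > 0` (`clo_lb`),
`T ≤ |G' c q|`, `q` is a maximiser at `c` (limit of the inequalities `G t_j q' ≤ G t_j q_j`), `f z = c`, `z` is not critical (`hreg`), and
the orbit through `z` closes at the time `T` (`clo_lim`): `Clo f c T`, contradiction to `hclo`.
-/

namespace H86T

open MeasureTheory H83D H25S Set Filter Topology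

private theorem t7_crit {f : ℝ × ℝ → ℝ} (hf : P2 f) (z : ℝ × ℝ) (k : ℤ × ℤ) : Crit f (z + iv k) ↔ Crit f z := by
  unfold Crit d1 d2
  rw [a3_pf hf]

/-- Move the starting point of a closing orbit to the unit square. -/
private theorem t7_red {f : ℝ × ℝ → ℝ} (hf : P2 f) {c τ : ℝ} (h : Clo f c τ) :
    ∃ (γ : ℝ → ℝ × ℝ) (k : ℤ × ℤ), Orb f γ ∧ f (γ 0) = c ∧ γ τ = γ 0 + iv k ∧
      γ 0 ∈ Set.Icc (0 : ℝ) 1 ×ˢ Set.Icc (0 : ℝ) 1 := by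
  obtain ⟨-, γ, k, hγ, hc, hk, -⟩ := h
  obtain ⟨z, l, hz, hzl⟩ := a3_red (γ 0)
  have e : γ 0 + iv (-l) = z := by
    rw [hzl]
    ext <;> simp [iv]
  refine ⟨fun t => γ t + iv (-l), k, orb_add hf hγ (-l), ?_, ?_, ?_⟩
  · show f (γ 0 + iv (-l)) = c
    rw [hf.per, hc]
  · show γ τ + iv (-l) = γ 0 + iv (-l) + iv k
    rw [hk]
    abel
  · show γ 0 + iv (-l) ∈ _
    rw [e]
    exact hz

private theorem t7_step {f : ℝ × ℝ → ℝ} (hf : P2 f) {Q : Type} [PseudoMetricSpace Q] {S : Set Q} {G G' : ℝ → Q → ℝ}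
    (h : Par S G G') {J : Set ℝ}
    (hcon : ∀ ε : ℝ, 0 < ε → ∃ c ∈ J, ∃ τ : ℝ, Clo f c τ ∧ ∃ t t' : ℝ, |t - c| ≤ ε ∧ |t' - c| ≤ ε ∧ t ≠ t' ∧
      τ * |t - t'| ≤ |MM S G t - MM S G t'|) {ε : ℝ} (hε : 0 < ε) :
    ∃ (c τ s ξ : ℝ) (γ : ℝ → ℝ × ℝ) (k : ℤ × ℤ) (q : Q), c ∈ J ∧ Clo f c τ ∧ |s - c| ≤ ε ∧ |ξ - c| ≤ ε ∧ Orb f γ ∧ f (γ 0) = c ∧
      γ τ = γ 0 + iv k ∧ γ 0 ∈ Set.Icc (0 : ℝ) 1 ×ˢ Set.Icc (0 : ℝ) 1 ∧ q ∈ S ∧ (∀ q' ∈ S, G s q' ≤ G s q) ∧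
      τ ≤ |G' ξ q| := by
  obtain ⟨c, hc, τ, hτ, t, t', ht, ht', hne, hle⟩ := hcon ε hε
  obtain ⟨γ, k, hγ, hγc, hγk, hγ0⟩ := t7_red hf hτ
  obtain ⟨ξ, hξ, q, hq, hmax, hquot⟩ := mm_quot h hne
  have hpos : 0 < |t - t'| := abs_pos.mpr (sub_ne_zero.mpr hne)
  have hτG : τ ≤ |G' ξ q| := le_of_mul_le_mul_right (hle.trans hquot) hpos
  have hξc : |ξ - c| ≤ ε := by
    have h1 := abs_le.mp ht
    have h2 := abs_le.mp ht'
    rw [Set.mem_uIcc] at hξ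
    rw [abs_le]
    rcases hξ with ⟨a, b⟩ | ⟨a, b⟩
    · exact ⟨by linarith, by linarith⟩
    · exact ⟨by linarith, by linarith⟩
  rcases hmax with hm | hm
  · exact ⟨c, τ, t, ξ, γ, k, q, hc, hτ, ht, hξc, hγ, hγc, hγk, hγ0, hq, hm, hτG⟩
  · exact ⟨c, τ, t', ξ, γ, k, q, hc, hτ, ht', hξc, hγ, hγc, hγk, hγ0, hq, hm, hτG⟩

private theorem t7_near {s c : ℕ → ℝ} (h : ∀ n : ℕ, |s n - c n| ≤ 1 / ((n : ℝ) + 1)) {φ : ℕ → ℕ} (hφ : StrictMono φ) {c0 : ℝ}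
    (hc : Tendsto (fun n => c (φ n)) atTop (𝓝 c0)) : Tendsto (fun n => s (φ n)) atTop (𝓝 c0) := by
  have h0 : Tendsto (fun n : ℕ => 1 / ((n : ℝ) + 1)) atTop (𝓝 0) := tendsto_one_div_add_atTop_nhds_zero_nat
  have h1 : Tendsto (fun n => s n - c n) atTop (𝓝 0) := squeeze_zero_norm (fun n => h n) h0
  have h2 : Tendsto (fun n => s (φ n) - c (φ n)) atTop (𝓝 0) := h1.comp hφ.tendsto_atTop
  have h3 := h2.add hc
  simpa using h3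

theorem unif {f : ℝ × ℝ → ℝ} (hf : P2 f) {Q : Type} [PseudoMetricSpace Q] {S : Set Q} {G G' : ℝ → Q → ℝ} (h : Par S G G')
    (hclo : ∀ (c τ : ℝ) (q : Q), q ∈ S → (∀ q' ∈ S, G c q' ≤ G c q) → Clo f c τ → |G' c q| < τ)
    {J : Set ℝ} (hJ : IsCompact J) (hreg : ∀ z, f z ∈ J → ¬ Crit f z) :
    ∃ ε : ℝ, 0 < ε ∧ ∀ c ∈ J, ∀ τ : ℝ, Clo f c τ → ∀ t t' : ℝ, |t - c| ≤ ε → |t' - c| ≤ ε → t ≠ t' →
      |MM S G t - MM S G t'| < τ * |t - t'| := by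
  by_contra hcon
  push Not at hcon
  obtain ⟨δ, hδ, hlb⟩ := clo_lb hf
  have hst : ∀ n : ℕ, ∃ (c τ s ξ : ℝ) (γ : ℝ → ℝ × ℝ) (k : ℤ × ℤ) (q : Q), c ∈ J ∧ Clo f c τ ∧ |s - c| ≤ 1 / ((n : ℝ) + 1) ∧
      |ξ - c| ≤ 1 / ((n : ℝ) + 1) ∧ Orb f γ ∧ f (γ 0) = c ∧
      γ τ = γ 0 + iv k ∧ γ 0 ∈ Set.Icc (0 : ℝ) 1 ×ˢ Set.Icc (0 : ℝ) 1 ∧ q ∈ S ∧ (∀ q' ∈ S, G s q' ≤ G s q) ∧
      τ ≤ |G' ξ q| := by
    intro n
    refine t7_step hf h (J := J) ?_ (by positivity)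
    intro ε hε
    obtain ⟨c, hc, τ, hτ, t, t', ht, ht', hne, hle⟩ := hcon ε hε
    exact ⟨c, hc, τ, hτ, t, t', ht, ht', hne, hle⟩
  choose c τ s ξ γ k q hc hτ hs hξ hγ hγc hγk hγ0 hq hm hτG using hst
  -- first subsequence
  have hK : IsCompact (J ×ˢ ((Set.Icc (0 : ℝ) 1 ×ˢ Set.Icc (0 : ℝ) 1) ×ˢ S)) :=
    hJ.prod ((isCompact_Icc.prod isCompact_Icc).prod h.cpt)
  obtain ⟨⟨c0, z, q0⟩, hmem, φ, hφ, hlim⟩ := hK.tendsto_subseq (x := fun n => (c n, (γ n 0, q n)))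
    (fun n => ⟨hc n, hγ0 n, hq n⟩)
  have hc0 : c0 ∈ J := hmem.1
  have hq0 : q0 ∈ S := hmem.2.2
  have lc : Tendsto (fun n => c (φ n)) atTop (𝓝 c0) := (continuous_fst.tendsto _).comp hlim
  have lz : Tendsto (fun n => γ (φ n) 0) atTop (𝓝 z) := ((continuous_fst.comp continuous_snd).tendsto _).comp hlim
  have lq : Tendsto (fun n => q (φ n)) atTop (𝓝 q0) := ((continuous_snd.comp continuous_snd).tendsto _).comp hlim
  have ls : Tendsto (fun n => s (φ n)) atTop (𝓝 c0) := t7_near hs hφ lc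
  have lξ : Tendsto (fun n => ξ (φ n)) atTop (𝓝 c0) := t7_near hξ hφ lc
  have lG : Tendsto (fun n => |G' (ξ (φ n)) (q (φ n))|) atTop (𝓝 |G' c0 q0|) := by
    have h1 : Tendsto (fun n => (ξ (φ n), q (φ n))) atTop (𝓝 (c0, q0)) := lξ.prodMk_nhds lq
    have h2 := (h.cG'.tendsto (c0, q0)).comp h1
    exact h2.abs
  -- second subsequence
  obtain ⟨B, hB⟩ := lG.bddAbove_range
  have hB' : ∀ n, |G' (ξ (φ n)) (q (φ n))| ≤ B := fun n => hB ⟨n, rfl⟩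
  obtain ⟨T, hT, ψ, hψ, lT⟩ := (isCompact_Icc (a := δ) (b := B)).tendsto_subseq (x := fun n => τ (φ n))
    (fun n => ⟨hlb _ _ (hτ (φ n)), (hτG (φ n)).trans (hB' n)⟩)
  have hTpos : 0 < T := lt_of_lt_of_le hδ hT.1
  have lT' : Tendsto (fun n => τ (φ (ψ n))) atTop (𝓝 T) := lT
  have hψt := hψ.tendsto_atTop
  have lz' : Tendsto (fun n => γ (φ (ψ n)) 0) atTop (𝓝 z) := lz.comp hψt
  have hTG : T ≤ |G' c0 q0| := by
    have h1 : Tendsto (fun n => |G' (ξ (φ (ψ n))) (q (φ (ψ n)))|) atTop (𝓝 |G' c0 q0|) := lG.comp hψt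
    exact le_of_tendsto_of_tendsto' lT' h1 (fun n => hτG _)
  have hfz : f z = c0 := by
    have h1 : Tendsto (fun n => f (γ (φ n) 0)) atTop (𝓝 (f z)) := (hf.smooth.continuous.tendsto z).comp lz
    have h2 : (fun n => f (γ (φ n) 0)) = fun n => c (φ n) := funext fun n => hγc _
    rw [h2] at h1
    exact tendsto_nhds_unique h1 lc
  have hz : ¬ Crit f z := hreg z (by rw [hfz]; exact hc0)
  have hmax : ∀ q' ∈ S, G c0 q' ≤ G c0 q0 := by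
    intro q' hq'
    have h1 : Tendsto (fun n => G (s (φ n)) q') atTop (𝓝 (G c0 q')) := by
      have h2 : Tendsto (fun n => (s (φ n), q')) atTop (𝓝 (c0, q')) := ls.prodMk_nhds tendsto_const_nhds
      exact (h.cG.tendsto (c0, q')).comp h2
    have h3 : Tendsto (fun n => G (s (φ n)) (q (φ n))) atTop (𝓝 (G c0 q0)) := by
      have h2 : Tendsto (fun n => (s (φ n), q (φ n))) atTop (𝓝 (c0, q0)) := ls.prodMk_nhds lq
      exact (h.cG.tendsto (c0, q0)).comp h2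
    exact le_of_tendsto_of_tendsto' h1 h3 (fun n => hm _ q' hq')
  obtain ⟨γ', k', hγ', h0', hT'⟩ := clo_lim hf (γ := fun n => γ (φ (ψ n))) (k := fun n => k (φ (ψ n)))
    (τ := fun n => τ (φ (ψ n))) (fun n => hγ _) (fun n => hδ.le.trans (hlb _ _ (hτ _))) lz' lT' (fun n => hγk _)
  have hClo : Clo f c0 T := by
    refine ⟨hTpos, γ', k', hγ', ?_, ?_, ?_⟩
    · rw [h0', hfz]
    · rw [h0', hT']
    · rw [h0']
      exact hz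
  exact absurd (hclo c0 T q0 hq0 hmax hClo) (not_lt.mpr hTG)

end H86T
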