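import Pool.Agent.Lib.H86T.T8

/-!
# Chunk T9 (M): the smoothed function is close to `M`
`M₁ u = ∫ s in 0..1, M (u + ε s)`, `M₂ u = ∫ s in 0..1, M₁ (u + ε s)`; `M₂` has the derivative `(M₁ (u + ε) - M₁ u) / ε = DQ M ε u`. On `[a, b]`:
`|M₂ - M| ≤ 2 L ε`, so `|∫_a^b DQ - (M b - M a)| ≤ 4 L ε`. `|DQ| ≤ L` on `[a, b]`, so `|∫_a^b (1 - χ) DQ| ≤ L * volume {χ ≠ 1} ≤ L δ`.
`N b - N a = ∫_a^b χ DQ` (`intervalIntegral.integral_eq_sub_of_hasDerivAt`).
-/

namespace H86T

open MeasureTheory H83D H25S Set Filter Topology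

private theorem h75_avg_deriv {f : ℝ → ℝ} (hf : Continuous f) {ε : ℝ} (hε : 0 < ε) (u : ℝ) :
    HasDerivAt (fun u => ∫ s in (0 : ℝ)..1, f (u + ε * s)) ((f (u + ε) - f u) / ε) u := by
  have hii : ∀ a b : ℝ, IntervalIntegrable f volume a b := fun a b => hf.intervalIntegrable a b
  have e : (fun u : ℝ => ∫ s in (0 : ℝ)..1, f (u + ε * s)) =
      fun u => ε⁻¹ * ((∫ v in (0 : ℝ)..(u + ε), f v) - ∫ v in (0 : ℝ)..u, f v) := by
    funext u
    rw [intervalIntegral.integral_comp_add_mul f hε.ne' u, mul_zero, add_zero, mul_one, smul_eq_mul,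
      intervalIntegral.integral_interval_sub_left (hii _ _) (hii _ _)]
  rw [e]
  have h1 : HasDerivAt (fun u : ℝ => ∫ v in (0 : ℝ)..u, f v) (f u) u :=
    intervalIntegral.integral_hasDerivAt_right (hii _ _)
      (hf.stronglyMeasurableAtFilter _ _) hf.continuousAt
  have h2 : HasDerivAt (fun w : ℝ => ∫ v in (0 : ℝ)..w, f v) (f (u + ε)) (u + ε) :=
    intervalIntegral.integral_hasDerivAt_right (hii _ _)
      (hf.stronglyMeasurableAtFilter _ _) hf.continuousAt
  have h3 : HasDerivAt (fun u : ℝ => ∫ v in (0 : ℝ)..(u + ε), f v) (f (u + ε)) u :=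
    h2.comp_add_const u ε
  have h4 := (h3.sub h1).const_mul ε⁻¹
  rw [div_eq_inv_mul]
  exact h4

private theorem h75_avg_close {f : ℝ → ℝ} {ε c K u : ℝ}
    (h : ∀ s ∈ Icc (0 : ℝ) 1, |f (u + ε * s) - c| ≤ K) (hf : Continuous f) :
    |(∫ s in (0 : ℝ)..1, f (u + ε * s)) - c| ≤ K := by
  have e : (∫ s in (0 : ℝ)..1, f (u + ε * s)) - c = ∫ s in (0 : ℝ)..1, (f (u + ε * s) - c) := by
    rw [intervalIntegral.integral_sub]
    · simp
    · exact (hf.comp (by fun_prop)).intervalIntegrable _ _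
    · exact continuous_const.intervalIntegrable _ _
  rw [e]
  have h2 := intervalIntegral.norm_integral_le_of_norm_le_const (a := (0 : ℝ)) (b := 1)
    (f := fun s => f (u + ε * s) - c) (C := K) (by
      intro s hs
      rw [uIoc_of_le zero_le_one] at hs
      rw [Real.norm_eq_abs]
      exact h s ⟨hs.1.le, hs.2⟩)
  rw [Real.norm_eq_abs] at h2
  simpa using h2

theorem smoothing_est {M χ N : ℝ → ℝ} (hM : Continuous M) (hχ : Continuous χ) (h01 : ∀ u, 0 ≤ χ u ∧ χ u ≤ 1)
    {ε L δ a b : ℝ} (hε : 0 < ε) (hL : 0 ≤ L) (hδ : 0 ≤ δ) (hab : a ≤ b)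
    (hLip : ∀ s ∈ Icc a (b + 2 * ε), ∀ t ∈ Icc a (b + 2 * ε), |M s - M t| ≤ L * |s - t|)
    (hvol : volume (Icc a b ∩ {u | χ u ≠ 1}) ≤ ENNReal.ofReal δ)
    (hN : ∀ u, HasDerivAt N (χ u * DQ M ε u) u) : |(N b - N a) - (M b - M a)| ≤ L * (4 * ε + δ) := by
  set M1 : ℝ → ℝ := fun u => ∫ s in (0 : ℝ)..1, M (u + ε * s) with hM1
  set M2 : ℝ → ℝ := fun u => ∫ s in (0 : ℝ)..1, M1 (u + ε * s) with hM2
  have hd1 : ∀ u, HasDerivAt M1 ((M (u + ε) - M u) / ε) u := h75_avg_deriv hM hε
  have hc1 : Continuous M1 := continuous_iff_continuousAt.2 fun u => (hd1 u).continuousAt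
  have hd2 : ∀ u, HasDerivAt M2 ((M1 (u + ε) - M1 u) / ε) u := h75_avg_deriv hc1 hε
  have hDQ : ∀ u, DQ M ε u = (M1 (u + ε) - M1 u) / ε := by
    intro u
    have hi1 : IntervalIntegrable (fun s => M (u + ε * s + ε)) volume 0 1 :=
      (hM.comp (by fun_prop)).intervalIntegrable _ _
    have hi2 : IntervalIntegrable (fun s => M (u + ε * s)) volume 0 1 :=
      (hM.comp (by fun_prop)).intervalIntegrable _ _
    unfold DQ
    rw [intervalIntegral.integral_div, intervalIntegral.integral_sub hi1 hi2]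
    have e : (∫ s in (0 : ℝ)..1, M (u + ε * s + ε)) = M1 (u + ε) := by
      rw [hM1]
      refine intervalIntegral.integral_congr fun s _ => ?_
      show M (u + ε * s + ε) = M (u + ε + ε * s)
      congr 1
      ring
    rw [e]
  have hDQc : Continuous (DQ M ε) := by
    have : DQ M ε = fun u => (M1 (u + ε) - M1 u) / ε := funext hDQ
    rw [this]
    fun_prop
  have hd2' : ∀ u, HasDerivAt M2 (DQ M ε u) u := fun u => by rw [hDQ]; exact hd2 u
  have hI1 : ∫ u in a..b, DQ M ε u = M2 b - M2 a :=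
    intervalIntegral.integral_eq_sub_of_hasDerivAt (fun u _ => hd2' u) (hDQc.intervalIntegrable _ _)
  have hI2 : ∫ u in a..b, χ u * DQ M ε u = N b - N a :=
    intervalIntegral.integral_eq_sub_of_hasDerivAt (fun u _ => hN u)
      ((hχ.mul hDQc).intervalIntegrable _ _)
  have hI3 : (N b - N a) - (M2 b - M2 a) = - ∫ u in a..b, (1 - χ u) * DQ M ε u := by
    have hci : IntervalIntegrable (fun u => χ u * DQ M ε u) volume a b :=
      (hχ.mul hDQc).intervalIntegrable _ _
    rw [← hI1, ← hI2, ← intervalIntegral.integral_sub hci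
      (hDQc.intervalIntegrable _ _), ← intervalIntegral.integral_neg]
    refine intervalIntegral.integral_congr fun u _ => ?_
    show χ u * DQ M ε u - DQ M ε u = -((1 - χ u) * DQ M ε u)
    ring
  -- closeness at the end points
  have hclose : ∀ c ∈ Icc a b, |M2 c - M c| ≤ 2 * L * ε := by
    intro c hc
    refine h75_avg_close (f := M1) (u := c) (fun s hs => ?_) hc1
    refine h75_avg_close (f := M) (u := c + ε * s) (fun r hr => ?_) hM
    have h0s : 0 ≤ ε * s := mul_nonneg hε.le hs.1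
    have h0r : 0 ≤ ε * r := mul_nonneg hε.le hr.1
    have h1s : ε * s ≤ ε := by nlinarith [hs.2]
    have h1r : ε * r ≤ ε := by nlinarith [hr.2]
    have h := hLip (c + ε * s + ε * r) ⟨by linarith [hc.1], by linarith [hc.2]⟩ c
      ⟨hc.1, by linarith [hc.2]⟩
    refine h.trans ?_
    have e : c + ε * s + ε * r - c = ε * s + ε * r := by ring
    rw [e, abs_of_nonneg (by linarith)]
    nlinarith
  have hDQb : ∀ u ∈ Icc a b, |DQ M ε u| ≤ L := by
    intro u hu
    unfold DQ
    have h2 := intervalIntegral.norm_integral_le_of_norm_le_const (a := (0 : ℝ)) (b := 1)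
      (f := fun s => (M (u + ε * s + ε) - M (u + ε * s)) / ε) (C := L) (by
        intro s hs
        rw [uIoc_of_le zero_le_one] at hs
        have h0s : 0 ≤ ε * s := mul_nonneg hε.le hs.1.le
        have h1s : ε * s ≤ ε := by nlinarith [hs.2]
        have h := hLip (u + ε * s + ε) ⟨by linarith [hu.1], by linarith [hu.2]⟩ (u + ε * s)
          ⟨by linarith [hu.1], by linarith [hu.2]⟩
        have e : u + ε * s + ε - (u + ε * s) = ε := by ring
        rw [e, abs_of_pos hε] at h
        rw [Real.norm_eq_abs, abs_div, abs_of_pos hε, div_le_iff₀ hε]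
        exact h)
    rw [Real.norm_eq_abs] at h2
    simpa using h2
  -- the integral over the bad set
  have hbad : |∫ u in a..b, (1 - χ u) * DQ M ε u| ≤ L * δ := by
    set S : Set ℝ := {u | χ u ≠ 1} with hS
    have hSo : IsOpen S := isOpen_ne_fun hχ continuous_const
    have hSm : MeasurableSet S := hSo.measurableSet
    have hg : Continuous fun u => (1 - χ u) * DQ M ε u := (continuous_const.sub hχ).mul hDQc
    have h1 : ‖∫ u in a..b, (1 - χ u) * DQ M ε u‖ ≤ ∫ u in a..b, ‖(1 - χ u) * DQ M ε u‖ :=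
      intervalIntegral.norm_integral_le_integral_norm hab
    rw [Real.norm_eq_abs] at h1
    refine h1.trans ?_
    rw [intervalIntegral.integral_of_le hab]
    have hint1 : IntegrableOn (fun u => ‖(1 - χ u) * DQ M ε u‖) (Ioc a b) :=
      (hg.norm.continuousOn.integrableOn_Icc (a := a) (b := b)).mono_set Ioc_subset_Icc_self
    have hint2 : IntegrableOn (S.indicator fun _ => L) (Ioc a b) :=
      (integrableOn_const (C := L) (s := Ioc a b) (μ := volume)
        (by rw [Real.volume_Ioc]; exact ENNReal.ofReal_ne_top)).indicator hSm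
    have h2 : ∫ u in Ioc a b, ‖(1 - χ u) * DQ M ε u‖ ≤ ∫ u in Ioc a b, S.indicator (fun _ => L) u := by
      refine setIntegral_mono_on hint1 hint2 measurableSet_Ioc fun u hu => ?_
      have huI : u ∈ Icc a b := Ioc_subset_Icc_self hu
      by_cases hus : u ∈ S
      · rw [indicator_of_mem hus, norm_mul, Real.norm_eq_abs, Real.norm_eq_abs]
        have h3 : |1 - χ u| ≤ 1 := by
          rw [abs_le]; constructor <;> linarith [(h01 u).1, (h01 u).2]
        calc |1 - χ u| * |DQ M ε u| ≤ 1 * L :=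
              mul_le_mul h3 (hDQb u huI) (abs_nonneg _) zero_le_one
          _ = L := one_mul _
      · have h4 : χ u = 1 := by
          by_contra hne
          exact hus hne
        rw [indicator_of_notMem hus, h4]
        simp
    refine h2.trans ?_
    rw [integral_indicator_const L hSm, smul_eq_mul, mul_comm]
    refine mul_le_mul_of_nonneg_left ?_ hL
    rw [Measure.real, Measure.restrict_apply hSm]
    refine ENNReal.toReal_le_of_le_ofReal hδ (le_trans (measure_mono ?_) hvol)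
    rintro u ⟨hu1, hu2⟩
    exact ⟨Ioc_subset_Icc_self hu2, hu1⟩
  have hb := hclose b ⟨hab, le_rfl⟩
  have ha := hclose a ⟨le_rfl, hab⟩
  have e : (N b - N a) - (M b - M a) =
      -(∫ u in a..b, (1 - χ u) * DQ M ε u) + (M2 b - M b) - (M2 a - M a) := by
    rw [← hI3]; ring
  rw [e]
  rw [abs_le] at hb ha hbad ⊢
  constructor <;> nlinarith [hb.1, hb.2, ha.1, ha.2, hbad.1, hbad.2]

end H86T
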