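import Pool.Agent.Lib.H86T.T3
import Pool.Agent.Lib.H86T.T7
import Pool.Agent.Lib.H86T.T9
import Pool.Agent.Lib.H86T.T10
import Pool.Agent.Lib.H86T.T11

/-!
# Chunk T12 (M): the key lemma
`|f| ≤ B` (`a4_bdd`); `a = -B`, `b = B`; `M = MM S G`, `L` from `mm_lip` on `[a, b + 2]`. For `δ > 0`: `cutoff` for `V = f '' {Crit f}` (`sard`):
`χ, J`; `hreg`: `J` and `V` are disjoint. `unif`: `ε₀`. For `0 < ε ≤ min (ε₀ / 2) 1`: `N` from `smoothing`; `osc_comp` with `N' = χ * DQ M ε`: if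
`N' (f z) ≠ 0` then `χ (f z) ≠ 0`, `f z ∈ J`, and for `Clo f (f z) τ`: `|(M (c + ε s + ε) - M (c + ε s)) / ε| < τ` for all `s ∈ [0, 1]`, so `|DQ M ε c| < τ`
(maximum of the continuous integrand), `|χ| ≤ 1`. So `N (f z) - N (f w) ≤ 33`, and `smoothing_est` on the interval between `f w` and `f z` gives
`M (f z) - M (f w) ≤ 33 + L (4 ε + δ)`. Let `ε, δ → 0`.
-/

namespace H86T

open MeasureTheory H83D H25S Set Filter Topology

private theorem T12_dq {M : ℝ → ℝ} (hM : Continuous M) {ε τ c : ℝ} (hε : 0 < ε)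
    (h : ∀ s ∈ Icc (0 : ℝ) 1, |M (c + ε * s + ε) - M (c + ε * s)| < τ * ε) : |DQ M ε c| < τ := by
  have hg : Continuous fun s : ℝ => (M (c + ε * s + ε) - M (c + ε * s)) / ε := by fun_prop
  obtain ⟨s₀, hs₀, hmax⟩ := isCompact_Icc.exists_isMaxOn (nonempty_Icc.2 (zero_le_one' ℝ))
    (hg.abs.continuousOn (s := Icc (0 : ℝ) 1))
  have hlt : |(M (c + ε * s₀ + ε) - M (c + ε * s₀)) / ε| < τ := by
    rw [abs_div, abs_of_pos hε, div_lt_iff₀ hε]
    exact h s₀ hs₀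
  refine lt_of_le_of_lt ?_ hlt
  have h1 : ‖∫ s in (0 : ℝ)..1, (M (c + ε * s + ε) - M (c + ε * s)) / ε‖
      ≤ |(M (c + ε * s₀ + ε) - M (c + ε * s₀)) / ε| * |1 - 0| := by
    refine intervalIntegral.norm_integral_le_of_norm_le_const fun s hs => ?_
    rw [uIoc_of_le zero_le_one] at hs
    rw [Real.norm_eq_abs]
    exact hmax (Ioc_subset_Icc_self hs)
  rw [sub_zero, abs_one, mul_one, Real.norm_eq_abs] at h1
  exact h1

private theorem T12_main {f : ℝ × ℝ → ℝ} (hf : P2 f) (h3 : ContDiff ℝ 3 f) {Q : Type} [PseudoMetricSpace Q]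
    {S : Set Q} {G G' : ℝ → Q → ℝ} (h : Par S G G')
    (hclo : ∀ (c τ : ℝ) (q : Q), q ∈ S → (∀ q' ∈ S, G c q' ≤ G c q) → Clo f c τ → |G' c q| < τ) {B L : ℝ}
    (hB : ∀ x, ‖f x‖ ≤ B) (hL0 : 0 ≤ L)
    (hL : ∀ s ∈ Icc (-B) (B + 2), ∀ t ∈ Icc (-B) (B + 2), |MM S G s - MM S G t| ≤ L * |s - t|)
    {δ : ℝ} (hδ : 0 < δ) : ∃ ε₀ : ℝ, 0 < ε₀ ∧ ∀ ε : ℝ, 0 < ε → ε ≤ ε₀ → ∀ z w : ℝ × ℝ,
      MM S G (f z) - MM S G (f w) ≤ 33 + L * (4 * ε + δ) := by
  have hMc := mm_cont h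
  obtain ⟨hV, hV0⟩ := sard h3 hf.per
  obtain ⟨χ, J, hχ, h01, hJ, hJV, hχJ, hvol⟩ := cutoff hV hV0 (-B) B hδ
  have hreg : ∀ z, f z ∈ J → ¬ Crit f z := fun z hz hc =>
    Set.disjoint_left.1 hJV hz ⟨z, hc, rfl⟩
  obtain ⟨ε₀, hε₀, hun⟩ := unif hf h hclo hJ hreg
  refine ⟨min (ε₀ / 2) 1, lt_min (half_pos hε₀) one_pos, fun ε hε hεle z w => ?_⟩
  have hε1 : ε ≤ 1 := hεle.trans (min_le_right _ _)
  have hε2 : 2 * ε ≤ ε₀ := by
    have := hεle.trans (min_le_left _ _)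
    linarith
  obtain ⟨-, N, hN2, hN⟩ := smoothing hMc hχ hε
  have hosc : ∀ z w : ℝ × ℝ, N (f z) - N (f w) ≤ 33 := by
    refine osc_comp hf hN2 hN fun z hz => ?_
    have hχ0 : χ (f z) ≠ 0 := left_ne_zero_of_mul hz
    have hfz : f z ∈ Icc (-B) B := by
      have := hB z
      rw [Real.norm_eq_abs] at this
      exact abs_le.1 this
    have hzJ : f z ∈ J := hχJ _ hfz hχ0
    refine ⟨hreg z hzJ, fun τ hτ => ?_⟩
    have hdq : |DQ (MM S G) ε (f z)| < τ := by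
      refine T12_dq hMc hε fun s hs => ?_
      have h0 : 0 ≤ ε * s := mul_nonneg hε.le hs.1
      have h1 : ε * s ≤ ε := by nlinarith [hs.2]
      have h2 := hun (f z) hzJ τ hτ (f z + ε * s + ε) (f z + ε * s)
        (by rw [abs_le]; constructor <;> linarith) (by rw [abs_le]; constructor <;> linarith)
        (by intro h'; linarith)
      have h3 : |f z + ε * s + ε - (f z + ε * s)| = ε := by
        rw [add_sub_cancel_left, abs_of_pos hε]
      rw [h3] at h2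
      exact h2
    rw [abs_mul, abs_of_nonneg (h01 (f z)).1]
    calc χ (f z) * |DQ (MM S G) ε (f z)| ≤ 1 * |DQ (MM S G) ε (f z)| :=
          mul_le_mul_of_nonneg_right (h01 (f z)).2 (abs_nonneg _)
      _ < τ := by rw [one_mul]; exact hdq
  have hBz := abs_le.1 (by simpa only [Real.norm_eq_abs] using hB z)
  have hBw := abs_le.1 (by simpa only [Real.norm_eq_abs] using hB w)
  have est : ∀ a b : ℝ, a ≤ b → -B ≤ a → b ≤ B →
      |(N b - N a) - (MM S G b - MM S G a)| ≤ L * (4 * ε + δ) := by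
    intro a b hab ha hb
    refine smoothing_est hMc hχ.continuous h01 hε hL0 hδ.le hab (fun s hs t ht => ?_) ?_ hN
    · exact hL s ⟨ha.trans hs.1, hs.2.trans (by linarith)⟩ t ⟨ha.trans ht.1, ht.2.trans (by linarith)⟩
    · exact (measure_mono (inter_subset_inter_left _ (Icc_subset_Icc ha hb))).trans hvol
  rcases le_total (f w) (f z) with hle | hle
  · have h4 := (abs_le.1 (est (f w) (f z) hle hBw.1 hBz.2)).1
    have h5 := hosc z w
    linarith
  · have h4 := (abs_le.1 (est (f z) (f w) hle hBz.1 hBw.2)).2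
    have h5 := hosc z w
    linarith

theorem key {f : ℝ × ℝ → ℝ} (hf : P2 f) (h3 : ContDiff ℝ 3 f) {Q : Type} [PseudoMetricSpace Q] {S : Set Q}
    {G G' : ℝ → Q → ℝ} (h : Par S G G')
    (hclo : ∀ (c τ : ℝ) (q : Q), q ∈ S → (∀ q' ∈ S, G c q' ≤ G c q) → Clo f c τ → |G' c q| < τ) (z w : ℝ × ℝ) :
    MM S G (f z) - MM S G (f w) ≤ 33 := by
  obtain ⟨B, hB⟩ := a4_bdd hf.smooth.continuous hf.per
  obtain ⟨L, hL0, hL⟩ := mm_lip h (-B) (B + 2)
  refine le_of_forall_pos_le_add fun e he => ?_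
  have hL1 : 0 < L + 1 := by linarith
  have hd : 0 < e / (2 * (L + 1)) := by positivity
  obtain ⟨ε₀, hε₀, hmain⟩ := T12_main hf h3 h hclo hB hL0 hL hd
  have he8 : 0 < e / (8 * (L + 1)) := by positivity
  have h1 := hmain (min ε₀ (e / (8 * (L + 1)))) (lt_min hε₀ he8) (min_le_left _ _) z w
  refine h1.trans (add_le_add_right ?_ _)
  have h2 : min ε₀ (e / (8 * (L + 1))) ≤ e / (8 * (L + 1)) := min_le_right _ _
  have h3' : 4 * min ε₀ (e / (8 * (L + 1))) + e / (2 * (L + 1)) ≤ e / (L + 1) := by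
    have h4 : 4 * (e / (8 * (L + 1))) + e / (2 * (L + 1)) = e / (L + 1) := by
      field_simp
      norm_num
    linarith
  calc L * (4 * min ε₀ (e / (8 * (L + 1))) + e / (2 * (L + 1))) ≤ L * (e / (L + 1)) :=
        mul_le_mul_of_nonneg_left h3' hL0
    _ ≤ e := by
        rw [← mul_div_assoc, div_le_iff₀ hL1]
        nlinarith

end H86T
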