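import Pool.Agent.Lib.H86T.Defs

/-!
# Chunk T2 (M)
On the segment `[x, y]`, `r = ‖y - x‖`: `K` = bound of the second / third derivative on the compact set `B`;
`Convex.norm_image_sub_le_of_norm_fderiv_le` on `segment ℝ x y ⊆ B` (points `u` of it have `‖u - x‖ ≤ r`): `‖D²f u‖ ≤ K r`,
`‖Df u‖ ≤ K r²`, `|f y - f x| ≤ K r³`. (`Crit f x` is equivalent to `fderiv ℝ f x = 0`, see `a3_fd` in H25S/A3.)
-/

namespace H86T

open MeasureTheory H83D H25S Set Filter Topology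

theorem crit_iff (f : ℝ × ℝ → ℝ) (z : ℝ × ℝ) : Crit f z ↔ fderiv ℝ f z = 0 := by
  constructor
  · rintro ⟨h1, h2⟩
    refine ContinuousLinearMap.ext fun p => ?_
    obtain ⟨a, b⟩ := p
    rw [a3_fd, h1, h2]
    simp
  · intro h
    have h1 := a3_fd f z 1 0
    have h2 := a3_fd f z 0 1
    rw [h] at h1 h2
    simp only [zero_apply] at h1 h2
    constructor
    · linarith
    · linarith

private theorem t2_seg {x y u : ℝ × ℝ} (hu : u ∈ segment ℝ x y) : ‖u - x‖ ≤ ‖y - x‖ := by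
  obtain ⟨a, b, ha, hb, hab, rfl⟩ := hu
  have h : a • x + b • y - x = b • (y - x) := by
    have : a = 1 - b := by linarith
    rw [this, sub_smul, one_smul, smul_sub]
    abel
  rw [h, norm_smul, Real.norm_eq_abs, abs_of_nonneg hb]
  have hb1 : b ≤ 1 := by linarith
  exact mul_le_of_le_one_left (norm_nonneg _) hb1

private theorem t2_step {F : Type} [NormedAddCommGroup F] [NormedSpace ℝ F] {g : ℝ × ℝ → F}
    (hd : ∀ u, DifferentiableAt ℝ g u) {x y : ℝ × ℝ} {C : ℝ} (m : ℕ) (hC : 0 ≤ C)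
    (hb : ∀ u ∈ segment ℝ x y, ‖fderiv ℝ g u‖ ≤ C * ‖u - x‖ ^ m) :
    ∀ u ∈ segment ℝ x y, ‖g u - g x‖ ≤ C * ‖u - x‖ ^ (m + 1) := by
  intro u hu
  have hs : segment ℝ x u ⊆ segment ℝ x y :=
    (convex_segment x y).segment_subset (left_mem_segment ℝ x y) hu
  have h1 : ∀ w ∈ segment ℝ x u, ‖fderiv ℝ g w‖ ≤ C * ‖u - x‖ ^ m := by
    intro w hw
    refine (hb w (hs hw)).trans ?_
    exact mul_le_mul_of_nonneg_left (pow_le_pow_left₀ (norm_nonneg _) (t2_seg hw) m) hC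
  have h2 := (convex_segment x u).norm_image_sub_le_of_norm_fderiv_le (fun w _ => hd w) h1
    (left_mem_segment ℝ x u) (right_mem_segment ℝ x u)
  calc ‖g u - g x‖ ≤ C * ‖u - x‖ ^ m * ‖u - x‖ := h2
    _ = C * ‖u - x‖ ^ (m + 1) := by rw [pow_succ]; ring

private theorem t2_bd {F : Type} [NormedAddCommGroup F] [NormedSpace ℝ F] {g : ℝ × ℝ → F} (hg : ContDiff ℝ 1 g)
    {B : Set (ℝ × ℝ)} (hB : IsCompact B) : ∃ K : ℝ, 0 ≤ K ∧ ∀ u ∈ B, ‖fderiv ℝ g u‖ ≤ K := by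
  have h : Continuous (fderiv ℝ g) := hg.continuous_fderiv (by norm_num)
  obtain ⟨K, hK⟩ := hB.exists_bound_of_continuousOn h.continuousOn
  exact ⟨max K 0, le_max_right _ _, fun u hu => (hK u hu).trans (le_max_left _ _)⟩

private theorem t2_gen {F : Type} [NormedAddCommGroup F] [NormedSpace ℝ F] {g : ℝ × ℝ → F} (hg : ContDiff ℝ 2 g)
    {B : Set (ℝ × ℝ)} (hB : IsCompact B) (hc : Convex ℝ B) :
    ∃ K : ℝ, 0 ≤ K ∧ ∀ x ∈ B, ∀ y ∈ B, fderiv ℝ g x = 0 → ∀ u ∈ segment ℝ x y, ‖g u - g x‖ ≤ K * ‖u - x‖ ^ 2 := by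
  have h1 : ContDiff ℝ 1 (fderiv ℝ g) := hg.fderiv_right (m := 1) (by norm_num)
  have d0 : ∀ u, DifferentiableAt ℝ g u := fun u => (hg.differentiable (by norm_num)) u
  have d1' : ∀ u, DifferentiableAt ℝ (fderiv ℝ g) u := fun u => (h1.differentiable (by norm_num)) u
  obtain ⟨K, hK, hb⟩ := t2_bd h1 hB
  refine ⟨K, hK, fun x hx y hy h0 => ?_⟩
  have hs : segment ℝ x y ⊆ B := hc.segment_subset hx hy
  have a1 := t2_step d1' (x := x) (y := y) 0 hK (fun u hu => by simpa using hb u (hs hu))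
  exact t2_step d0 (x := x) (y := y) 1 hK (fun u hu => by
    have := a1 u hu
    rw [h0, sub_zero] at this
    simpa using this)

theorem taylor2 {f : ℝ × ℝ → ℝ} (hf : ContDiff ℝ 2 f) {B : Set (ℝ × ℝ)} (hB : IsCompact B) (hc : Convex ℝ B) :
    ∃ K : ℝ, 0 ≤ K ∧ ∀ x ∈ B, ∀ y ∈ B, fderiv ℝ f x = 0 → |f y - f x| ≤ K * ‖y - x‖ ^ 2 := by
  obtain ⟨K, hK, h⟩ := t2_gen hf hB hc
  refine ⟨K, hK, fun x hx y hy h0 => ?_⟩
  have a3 := h x hx y hy h0 y (right_mem_segment ℝ x y)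
  rw [Real.norm_eq_abs] at a3
  exact a3

theorem taylor3 {f : ℝ × ℝ → ℝ} (hf : ContDiff ℝ 3 f) {B : Set (ℝ × ℝ)} (hB : IsCompact B) (hc : Convex ℝ B) :
    ∃ K : ℝ, 0 ≤ K ∧ ∀ x ∈ B, ∀ y ∈ B, fderiv ℝ f x = 0 → fderiv ℝ (fderiv ℝ f) x = 0 →
      |f y - f x| ≤ K * ‖y - x‖ ^ 3 := by
  have h1 : ContDiff ℝ 2 (fderiv ℝ f) := hf.fderiv_right (m := 2) (by norm_num)
  have d0 : ∀ u, DifferentiableAt ℝ f u := fun u => (hf.differentiable (by norm_num)) u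
  obtain ⟨K, hK, h⟩ := t2_gen h1 hB hc
  refine ⟨K, hK, fun x hx y hy h0 h0' => ?_⟩
  have a1 := h x hx y hy h0'
  have a2 := t2_step d0 (x := x) (y := y) 2 hK (fun u hu => by
    have := a1 u hu
    rw [h0, sub_zero] at this
    exact this)
  have a3 := a2 y (right_mem_segment ℝ x y)
  rw [Real.norm_eq_abs] at a3
  exact a3

end H86T
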