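import Pool.Agent.Lib.H86T.T1
import Pool.Agent.Lib.H86T.T2

/-!
# Chunk T3 (M): Sard's theorem for periodic functions of class `C³` on the plane
`hol2`: `f` is Hölder on `s` with the exponent `2`; `HolderOnWith.hausdorffMeasure_image_le` with `d = 1`:
`μH[1] (f '' s) ≤ C * μH[2] s`, `hausdorffMeasure_real`, `hausdorffMeasure_prod_real`. `hol3`: exponent `3`, and `μH[3] s = 0` for every
`s ⊆ ℝ²` (`hausdorffMeasure_of_dimH_lt`, `Real.dimH_univ_eq_finrank`).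
`sard`: by periodicity (`H83D.a3_red`) the critical points in the unit square suffice (compact, convex). Those with `D²f = 0`:
`taylor3`, `hol3`. The others lie in `{d1 f = 0, D(d1 f) ≠ 0} ∪ {d2 f = 0, D(d2 f) ≠ 0}`, a null set by `null_zero`: `taylor2`, `hol2`.
-/

namespace H86T

open MeasureTheory H83D H25S Set Filter Topology

private theorem hol_aux {f : ℝ × ℝ → ℝ} {s : Set (ℝ × ℝ)} {K : ℝ} (hK : 0 ≤ K) (n : ℕ)
    (h : ∀ x ∈ s, ∀ y ∈ s, |f y - f x| ≤ K * ‖y - x‖ ^ n) : HolderOnWith K.toNNReal n f s := by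
  intro x hx y hy
  have h1 := h x hx y hy
  rw [edist_dist, edist_dist, Real.dist_eq, abs_sub_comm, NNReal.coe_natCast, ENNReal.rpow_natCast,
    ← ENNReal.ofReal_pow dist_nonneg]
  change _ ≤ ENNReal.ofReal K * _
  rw [← ENNReal.ofReal_mul hK]
  apply ENNReal.ofReal_le_ofReal
  rw [dist_eq_norm, norm_sub_rev]
  exact h1

theorem hol2 {f : ℝ × ℝ → ℝ} {s : Set (ℝ × ℝ)} {K : ℝ} (hK : 0 ≤ K) (h : ∀ x ∈ s, ∀ y ∈ s, |f y - f x| ≤ K * ‖y - x‖ ^ 2)
    (hs : volume s = 0) : volume (f '' s) = 0 := by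
  have h1 := (hol_aux hK 2 h).hausdorffMeasure_image_le (by norm_num) (d := 1) zero_le_one
  have e : (((2 : ℕ) : NNReal) : ℝ) * 1 = 2 := by norm_num
  rw [e, hausdorffMeasure_prod_real, hs, mul_zero, hausdorffMeasure_real] at h1
  exact le_antisymm h1 zero_le

theorem hol3 {f : ℝ × ℝ → ℝ} {s : Set (ℝ × ℝ)} {K : ℝ} (hK : 0 ≤ K) (h : ∀ x ∈ s, ∀ y ∈ s, |f y - f x| ≤ K * ‖y - x‖ ^ 3) :
    volume (f '' s) = 0 := by
  have h1 := (hol_aux hK 3 h).hausdorffMeasure_image_le (by norm_num) (d := 1) zero_le_one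
  have e : (((3 : ℕ) : NNReal) : ℝ) * 1 = ((3 : NNReal) : ℝ) := by norm_num
  have h2 : Measure.hausdorffMeasure ((3 : NNReal) : ℝ) s = 0 := by
    apply hausdorffMeasure_of_dimH_lt
    have h3 : dimH (Set.univ : Set (ℝ × ℝ)) = Module.finrank ℝ (ℝ × ℝ) := Real.dimH_univ_eq_finrank _
    have h4 : dimH s ≤ dimH (Set.univ : Set (ℝ × ℝ)) := dimH_mono (Set.subset_univ _)
    have h5 : Module.finrank ℝ (ℝ × ℝ) = 2 := by simp [Module.finrank_prod]
    refine lt_of_le_of_lt h4 ?_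
    rw [h3, h5]
    norm_num
  rw [e, h2, mul_zero, hausdorffMeasure_real] at h1
  exact le_antisymm h1 zero_le

private theorem dd (f : ℝ × ℝ → ℝ) (hf : ContDiff ℝ 3 f) (z v w : ℝ × ℝ) :
    fderiv ℝ (fun x => fderiv ℝ f x v) z w = fderiv ℝ (fderiv ℝ f) z w v := by
  have h1 : ContDiff ℝ 2 (fderiv ℝ f) := hf.fderiv_right (by norm_num)
  have h2 : DifferentiableAt ℝ (fderiv ℝ f) z := (h1.differentiable (by norm_num)) z
  have h3 := ((ContinuousLinearMap.apply ℝ ℝ v).hasFDerivAt.comp z h2.hasFDerivAt).fderiv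
  have h4 : (fun x => fderiv ℝ f x v) = (⇑(ContinuousLinearMap.apply ℝ ℝ v) ∘ fderiv ℝ f) := rfl
  rw [h4, h3]
  rfl

private theorem dd0 (f : ℝ × ℝ → ℝ) (hf : ContDiff ℝ 3 f) (z : ℝ × ℝ) (h11 : d1 (d1 f) z = 0) (h12 : d2 (d1 f) z = 0)
    (h21 : d1 (d2 f) z = 0) (h22 : d2 (d2 f) z = 0) : fderiv ℝ (fderiv ℝ f) z = 0 := by
  have e11 : fderiv ℝ (fderiv ℝ f) z (1, 0) (1, 0) = 0 := by rw [← dd f hf]; exact h11
  have e12 : fderiv ℝ (fderiv ℝ f) z (0, 1) (1, 0) = 0 := by rw [← dd f hf]; exact h12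
  have e21 : fderiv ℝ (fderiv ℝ f) z (1, 0) (0, 1) = 0 := by rw [← dd f hf]; exact h21
  have e22 : fderiv ℝ (fderiv ℝ f) z (0, 1) (0, 1) = 0 := by rw [← dd f hf]; exact h22
  refine ContinuousLinearMap.ext fun w => ContinuousLinearMap.ext fun v => ?_
  have hw : w = w.1 • ((1 : ℝ), (0 : ℝ)) + w.2 • ((0 : ℝ), (1 : ℝ)) := by ext <;> simp
  have hv : v = v.1 • ((1 : ℝ), (0 : ℝ)) + v.2 • ((0 : ℝ), (1 : ℝ)) := by ext <;> simp
  rw [hw, hv]
  simp only [map_add, map_smul, ContinuousLinearMap.add_apply, ContinuousLinearMap.smul_apply, e11, e12, e21, e22,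
    smul_zero, add_zero]
  simp

theorem sard {f : ℝ × ℝ → ℝ} (hf : ContDiff ℝ 3 f) (hp : ∀ (z : ℝ × ℝ) (k : ℤ × ℤ), f (z + iv k) = f z) :
    IsCompact (f '' {z | Crit f z}) ∧ volume (f '' {z | Crit f z}) = 0 := by
  obtain ⟨B, hBd⟩ : ∃ B : Set (ℝ × ℝ), B = Set.Icc (0 : ℝ) 1 ×ˢ Set.Icc (0 : ℝ) 1 := ⟨_, rfl⟩
  have hB : IsCompact B := by rw [hBd]; exact isCompact_Icc.prod isCompact_Icc
  have hc : Convex ℝ B := by rw [hBd]; exact (convex_Icc _ _).prod (convex_Icc _ _)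
  have hcf : Continuous (fderiv ℝ f) := hf.continuous_fderiv (by norm_num)
  have hcl : IsClosed {z | Crit f z} := by
    have : {z | Crit f z} = {z | fderiv ℝ f z = 0} := by ext z; exact crit_iff f z
    rw [this]
    exact isClosed_eq hcf continuous_const
  have hfp : ∀ (z : ℝ × ℝ) (k : ℤ × ℤ), fderiv ℝ f (z + iv k) = fderiv ℝ f z := by
    intro z k
    have h1 : (fun x => f (x + iv k)) = f := funext fun x => hp x k
    have h2 := fderiv_comp_add_right (𝕜 := ℝ) (f := f) (x := z) (iv k)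
    rw [h1] at h2
    exact h2.symm
  have him : f '' {z | Crit f z} = f '' ({z | Crit f z} ∩ B) := by
    apply Set.Subset.antisymm
    · rintro _ ⟨x, hx, rfl⟩
      obtain ⟨z, k, hz, rfl⟩ := a3_red x
      refine ⟨z, ⟨?_, by rw [hBd]; exact hz⟩, (hp z k).symm⟩
      rw [Set.mem_setOf_eq, crit_iff] at hx ⊢
      rw [← hfp z k]
      exact hx
    · exact Set.image_mono Set.inter_subset_left
  rw [him]
  refine ⟨(hB.inter_left hcl).image hf.continuous, ?_⟩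
  obtain ⟨K2, hK2, t2⟩ := taylor2 (hf.of_le (by norm_num)) hB hc
  obtain ⟨K3, hK3, t3⟩ := taylor3 hf hB hc
  have hsub : {z | Crit f z} ∩ B ⊆ {z | z ∈ B ∧ fderiv ℝ f z = 0 ∧ fderiv ℝ (fderiv ℝ f) z = 0} ∪
      {z | z ∈ B ∧ fderiv ℝ f z = 0 ∧ fderiv ℝ (fderiv ℝ f) z ≠ 0} := by
    rintro z ⟨hz, hzB⟩
    rw [Set.mem_setOf_eq, crit_iff] at hz
    by_cases h : fderiv ℝ (fderiv ℝ f) z = 0
    · exact Or.inl ⟨hzB, hz, h⟩
    · exact Or.inr ⟨hzB, hz, h⟩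
  have m3 : volume (f '' {z | z ∈ B ∧ fderiv ℝ f z = 0 ∧ fderiv ℝ (fderiv ℝ f) z = 0}) = 0 :=
    hol3 hK3 fun x hx y hy => t3 x hx.1 y hy.1 hx.2.1 hx.2.2
  have c1 : ContDiff ℝ 1 (d1 f) := (hf.fderiv_right (m := 1) (by norm_num)).clm_apply contDiff_const
  have c2 : ContDiff ℝ 1 (d2 f) := (hf.fderiv_right (m := 1) (by norm_num)).clm_apply contDiff_const
  have m2 : volume (f '' {z | z ∈ B ∧ fderiv ℝ f z = 0 ∧ fderiv ℝ (fderiv ℝ f) z ≠ 0}) = 0 := by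
    refine hol2 hK2 (fun x hx y hy => t2 x hx.1 y hy.1 hx.2.1) ?_
    refine measure_mono_null (t := {z | d1 f z = 0 ∧ (d1 (d1 f) z ≠ 0 ∨ d2 (d1 f) z ≠ 0)} ∪
      {z | d2 f z = 0 ∧ (d1 (d2 f) z ≠ 0 ∨ d2 (d2 f) z ≠ 0)}) ?_ (measure_union_null (null_zero c1) (null_zero c2))
    rintro z ⟨-, h0, h1⟩
    have e1 : d1 f z = 0 := by simp [d1, h0]
    have e2 : d2 f z = 0 := by simp [d2, h0]
    by_contra hcon
    simp only [Set.mem_union, Set.mem_setOf_eq, not_or, not_and, not_not, e1, e2, true_imp_iff] at hcon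
    obtain ⟨⟨a1, a2⟩, a3, a4⟩ := hcon
    exact h1 (dd0 f hf z a1 a2 a3 a4)
  have h := measure_mono (μ := volume) (Set.image_mono hsub (f := f))
  rw [Set.image_union] at h
  exact le_antisymm (h.trans (measure_union_null m3 m2).le) zero_le

end H86T
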