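import Pool.Agent.Lib.H86T.Defs

/-!
# Chunk T4 (M): lower bound for the closing times
`a3_lip`: the field `X` has a Lipschitz constant `K` and a bound `C`. Closing with `k ≠ 0`: `1 ≤ ‖iv k‖ = ‖γ τ - γ 0‖ ≤ C τ`.
Closing with `k = 0`: `m = max ‖X (γ t)‖` on `[0, τ]`, attained at `t₀`, `m > 0` (`orb_reg`); `∫_0^τ X (γ s) ds = γ τ - γ 0 = 0`, so
`m τ = ‖∫ (X (γ t₀) - X (γ s)) ds‖ ≤ τ * K * (τ m)` (`‖γ t₀ - γ s‖ ≤ m |t₀ - s|`), hence `1 ≤ K τ`.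
-/

namespace H86T

open MeasureTheory H83D H25S Set Filter Topology

private theorem t4_iv {k : ℤ × ℤ} (hk : k ≠ 0) : 1 ≤ ‖iv k‖ := by
  have key : ∀ a : ℤ, a ≠ 0 → (1 : ℝ) ≤ ‖(a : ℝ)‖ := by
    intro a ha
    rw [Real.norm_eq_abs, ← Int.cast_abs]
    exact_mod_cast Int.one_le_abs ha
  by_cases h1 : k.1 = 0
  · have h2 : k.2 ≠ 0 := fun h2 => hk (Prod.ext h1 h2)
    exact (key k.2 h2).trans (norm_snd_le (iv k))
  · exact (key k.1 h1).trans (norm_fst_le (iv k))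

private theorem t4_mv {γ : ℝ → ℝ × ℝ} {γ' : ℝ → ℝ × ℝ} {C τ : ℝ} (h : ∀ t, HasDerivAt γ (γ' t) t)
    (hb : ∀ t ∈ Set.Icc 0 τ, ‖γ' t‖ ≤ C) {x y : ℝ} (hx : x ∈ Set.Icc 0 τ) (hy : y ∈ Set.Icc 0 τ) :
    ‖γ y - γ x‖ ≤ C * |y - x| := by
  have := Convex.norm_image_sub_le_of_norm_hasDerivWithin_le (f := γ) (f' := γ') (C := C) (s := Set.Icc 0 τ)
    (fun t _ => (h t).hasDerivWithinAt) hb (convex_Icc 0 τ) hx hy
  rwa [Real.norm_eq_abs] at this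

theorem clo_lb {f : ℝ × ℝ → ℝ} (hf : P2 f) : ∃ δ : ℝ, 0 < δ ∧ ∀ c τ : ℝ, Clo f c τ → δ ≤ τ := by
  obtain ⟨K, C, hL, hC⟩ := a3_lip hf
  have hC0 : 0 ≤ C := (norm_nonneg _).trans (hC 0)
  have hK0 : 0 ≤ (K : ℝ) := K.2
  refine ⟨min (1 / (C + 1)) (1 / ((K : ℝ) + 1)), lt_min (by positivity) (by positivity), ?_⟩
  rintro c τ ⟨hτ, γ, k, hγ, -, hk, hcr⟩
  have h0 : (0 : ℝ) ∈ Set.Icc 0 τ := ⟨le_rfl, hτ.le⟩
  have h1 : τ ∈ Set.Icc 0 τ := ⟨hτ.le, le_rfl⟩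
  have hd : ∀ t, HasDerivAt γ (a3_X f (γ t)) t := hγ
  by_cases hk0 : k = 0
  · have e : γ τ = γ 0 := by
      rw [hk, hk0]
      have : iv (0 : ℤ × ℤ) = 0 := by simp [iv]
      rw [this, add_zero]
    refine (min_le_right _ _).trans ?_
    have hcont : ContinuousOn (fun t => ‖a3_X f (γ t)‖) (Set.Icc 0 τ) :=
      ((hL.continuous.comp (orb_cont hγ)).norm).continuousOn
    obtain ⟨t₀, ht₀, hmax⟩ := isCompact_Icc.exists_isMaxOn ⟨0, h0⟩ hcont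
    set m : ℝ := ‖a3_X f (γ t₀)‖ with hm
    have hb : ∀ t ∈ Set.Icc 0 τ, ‖a3_X f (γ t)‖ ≤ m := fun t ht => hmax ht
    have hmpos : 0 < m := by
      rw [hm, norm_pos_iff]
      intro h
      refine orb_reg hf hγ hcr t₀ ?_
      have h2 := congrArg Prod.fst h
      have h3 := congrArg Prod.snd h
      exact ⟨neg_eq_zero.1 h3, h2⟩
    have hdist : ∀ s ∈ Set.Icc 0 τ, ‖γ s - γ t₀‖ ≤ m * τ := by
      intro s hs
      refine (t4_mv hd hb ht₀ hs).trans ?_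
      refine mul_le_mul_of_nonneg_left ?_ hmpos.le
      rw [abs_le]
      constructor <;> linarith [hs.1, hs.2, ht₀.1, ht₀.2]
    have hg : ∀ s, HasDerivAt (fun s => γ s - s • a3_X f (γ t₀)) (a3_X f (γ s) - (1 : ℝ) • a3_X f (γ t₀)) s := by
      intro s
      exact (hd s).sub ((hasDerivAt_id s).smul_const (a3_X f (γ t₀)))
    have hgb : ∀ s ∈ Set.Icc 0 τ, ‖a3_X f (γ s) - (1 : ℝ) • a3_X f (γ t₀)‖ ≤ K * (m * τ) := by
      intro s hs
      rw [one_smul]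
      have := hL.dist_le_mul (γ s) (γ t₀)
      rw [dist_eq_norm, dist_eq_norm] at this
      exact this.trans (mul_le_mul_of_nonneg_left (hdist s hs) hK0)
    have hfin := t4_mv hg hgb h0 h1
    have e2 : (γ τ - τ • a3_X f (γ t₀)) - (γ 0 - (0 : ℝ) • a3_X f (γ t₀)) = -(τ • a3_X f (γ t₀)) := by
      rw [e, zero_smul]; abel
    simp only [e2] at hfin
    rw [norm_neg, norm_smul, Real.norm_eq_abs, abs_of_pos hτ, sub_zero, abs_of_pos hτ] at hfin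
    rw [← hm] at hfin
    have h5 : 1 ≤ K * τ := by
      have h6 : (τ * m) * 1 ≤ (τ * m) * (K * τ) := by
        calc (τ * m) * 1 = τ * m := mul_one _
          _ ≤ K * (m * τ) * τ := hfin
          _ = (τ * m) * (K * τ) := by ring
      exact le_of_mul_le_mul_left h6 (mul_pos hτ hmpos)
    rw [div_le_iff₀ (by positivity)]
    nlinarith
  · refine (min_le_left _ _).trans ?_
    have h2 := t4_mv hd (C := C) (fun t _ => hC (γ t)) h0 h1
    rw [hk, add_sub_cancel_left, sub_zero, abs_of_pos hτ] at h2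
    have h3 := (t4_iv hk0).trans h2
    rw [div_le_iff₀ (by positivity)]
    nlinarith

end H86T
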