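import Pool.Agent.Lib.H86T.Defs

/-!
# Chunk T8 (M): smoothing
`M₁ u = ∫ s in 0..1, M (u + ε s) = ε⁻¹ ∫ v in u..(u + ε), M v` is `C¹` (`M` continuous), `DQ M ε u = (M₁ (u + ε) - M₁ u) / ε`
(`M (u + ε s + ε) = M ((u + ε) + ε s)`, linearity), so `χ * DQ M ε` is `C¹` and `N u = ∫ v in 0..u, χ v * DQ M ε v` is `C²`
(`contDiff_succ_iff_deriv` or `contDiff_one_iff_deriv`, `intervalIntegral.integral_hasDerivAt_right`).
-/

namespace H86T

open MeasureTheory H83D H25S Set Filter Topology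

private theorem t8_prim {M : ℝ → ℝ} (hM : Continuous M) (u : ℝ) :
    HasDerivAt (fun u => ∫ v in (0 : ℝ)..u, M v) (M u) u :=
  intervalIntegral.integral_hasDerivAt_right (hM.intervalIntegrable _ _)
    (hM.stronglyMeasurableAtFilter _ _) hM.continuousAt

private theorem t8_C1 {M : ℝ → ℝ} (hM : Continuous M) :
    ContDiff ℝ 1 (fun u => ∫ v in (0 : ℝ)..u, M v) := by
  rw [contDiff_one_iff_deriv]
  refine ⟨fun u => (t8_prim hM u).differentiableAt, ?_⟩
  have h : deriv (fun u => ∫ v in (0 : ℝ)..u, M v) = M := funext fun u => (t8_prim hM u).deriv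
  rw [h]
  exact hM

private theorem t8_int {M : ℝ → ℝ} (hM : Continuous M) {ε : ℝ} (hε : 0 < ε) (d : ℝ) :
    ∫ s in (0 : ℝ)..1, M (d + ε * s) =
      ε⁻¹ * ((∫ v in (0 : ℝ)..(d + ε), M v) - ∫ v in (0 : ℝ)..d, M v) := by
  rw [intervalIntegral.integral_comp_add_mul (fun v => M v) hε.ne' d, mul_zero, add_zero, mul_one,
    smul_eq_mul, intervalIntegral.integral_interval_sub_left (hM.intervalIntegrable _ _)
      (hM.intervalIntegrable _ _)]

private theorem t8_DQ {M : ℝ → ℝ} (hM : Continuous M) {ε : ℝ} (hε : 0 < ε) (u : ℝ) :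
    DQ M ε u = ε⁻¹ * (ε⁻¹ * ((∫ v in (0 : ℝ)..(u + ε + ε), M v) - ∫ v in (0 : ℝ)..(u + ε), M v) -
      ε⁻¹ * ((∫ v in (0 : ℝ)..(u + ε), M v) - ∫ v in (0 : ℝ)..u, M v)) := by
  have h1 : Continuous fun s : ℝ => M (u + ε + ε * s) := hM.comp (by fun_prop)
  have h2 : Continuous fun s : ℝ => M (u + ε * s) := hM.comp (by fun_prop)
  have e : DQ M ε u = ∫ s in (0 : ℝ)..1, ε⁻¹ * (M (u + ε + ε * s) - M (u + ε * s)) := by
    unfold DQ
    refine intervalIntegral.integral_congr fun s _ => ?_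
    have e1 : u + ε * s + ε = u + ε + ε * s := by ring
    simp only [e1]
    rw [div_eq_inv_mul]
  rw [e, intervalIntegral.integral_const_mul, intervalIntegral.integral_sub
    (h1.intervalIntegrable _ _) (h2.intervalIntegrable _ _), t8_int hM hε, t8_int hM hε]

theorem smoothing {M χ : ℝ → ℝ} (hM : Continuous M) (hχ : ContDiff ℝ 1 χ) {ε : ℝ} (hε : 0 < ε) :
    ContDiff ℝ 1 (DQ M ε) ∧ ∃ N : ℝ → ℝ, ContDiff ℝ 2 N ∧ ∀ u, HasDerivAt N (χ u * DQ M ε u) u := by
  have hP := t8_C1 hM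
  have h1 : ContDiff ℝ 1 (DQ M ε) := by
    have e : DQ M ε = fun u => ε⁻¹ * (ε⁻¹ * ((∫ v in (0 : ℝ)..(u + ε + ε), M v) -
        ∫ v in (0 : ℝ)..(u + ε), M v) -
        ε⁻¹ * ((∫ v in (0 : ℝ)..(u + ε), M v) - ∫ v in (0 : ℝ)..u, M v)) :=
      funext fun u => t8_DQ hM hε u
    rw [e]
    have a1 : ContDiff ℝ 1 fun u : ℝ => ∫ v in (0 : ℝ)..(u + ε + ε), M v :=
      hP.comp ((contDiff_id.add contDiff_const).add contDiff_const)
    have a2 : ContDiff ℝ 1 fun u : ℝ => ∫ v in (0 : ℝ)..(u + ε), M v :=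
      hP.comp (contDiff_id.add contDiff_const)
    exact contDiff_const.mul ((contDiff_const.mul (a1.sub a2)).sub (contDiff_const.mul (a2.sub hP)))
  refine ⟨h1, fun u => ∫ v in (0 : ℝ)..u, χ v * DQ M ε v, ?_, ?_⟩
  · have hc : ContDiff ℝ 1 fun v => χ v * DQ M ε v := hχ.mul h1
    have e2 : (2 : WithTop ℕ∞) = 1 + 1 := by norm_num
    rw [e2, contDiff_succ_iff_deriv]
    refine ⟨fun u => (t8_prim hc.continuous u).differentiableAt, fun h => ?_, ?_⟩
    · exact absurd h (by decide)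
    · have h : deriv (fun u => ∫ v in (0 : ℝ)..u, χ v * DQ M ε v) = fun v => χ v * DQ M ε v :=
        funext fun u => (t8_prim hc.continuous u).deriv
      rw [h]
      exact hc
  · intro u
    exact t8_prim (hχ.continuous.mul h1.continuous) u

end H86T
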